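import Mathlib

section

/-!
Normal spaces from scales, with `ω` replaced by an infinite set `Λ`: the definitions.
-/

namespace Pool.Agent.Lib.MP_473540_gtM

open Cardinal Ordinal Filter Set

/-- the cofinality is larger than `#Λ`, in an elementary form (see `big_iff_cof`) -/
def Big (Λ : Type) (o : Ordinal.{0}) : Prop :=
  0 < o ∧ ∀ a : Λ → Ordinal.{0}, (∀ k, a k < o) → ∃ b < o, ∀ k, a k < b

/-- `v` is an exact upper bound of `(f β)_{β < δ}` modulo finite: a function is below `v` for almost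
all `m` if and only if it is below some `f β`, `β < δ`, for almost all `m` -/
def Eub (f : Ordinal.{0} → ℕ → Ordinal.{0}) (δ : Ordinal.{0}) (v : ℕ → Ordinal.{0}) : Prop :=
  ∀ h : ℕ → Ordinal.{0},
    (∀ᶠ m in atTop, h m < v m) ↔ ∃ β < δ, ∀ᶠ m in atTop, h m < f β m

/-- `(f α)_{α < lam}` is a scale (increasing and cofinal modulo finite) in the product of the
regular cardinals `κ 0 < κ 1 < ...` above `#Λ`, of regular length `lam` above all `κ n` -/
structure Scale (Λ : Type) (κ : ℕ → Cardinal.{0}) (lam : Cardinal.{0})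
    (f : Ordinal.{0} → ℕ → Ordinal.{0}) : Prop where
  inf : ℵ₀ ≤ #Λ
  reg : ∀ n, (κ n).IsRegular
  mono : StrictMono κ
  unc : #Λ < κ 0
  lreg : lam.IsRegular
  lt_lam : ∀ n, κ n < lam
  mem : ∀ α < lam.ord, ∀ n, f α n < (κ n).ord
  inc : ∀ α β, α < β → β < lam.ord → ∀ᶠ n in atTop, f α n < f β n
  cof : ∀ g : ℕ → Ordinal.{0}, (∀ n, g n < (κ n).ord) →
    ∃ α < lam.ord, ∀ᶠ n in atTop, g n < f α n

/-- a scale such that every point of cofinality above `#Λ` has an exact upper bound whose values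
have cofinality above `#Λ` -/
structure EubScale (Λ : Type) (κ : ℕ → Cardinal.{0}) (lam : Cardinal.{0})
    (f : Ordinal.{0} → ℕ → Ordinal.{0}) : Prop extends Scale Λ κ lam f where
  eub : ∀ δ < lam.ord, #Λ < δ.cof →
    ∃ v : ℕ → Ordinal.{0}, (∀ᶠ m in atTop, #Λ < (v m).cof) ∧ Eub f δ v

/-- the points: functions `y ≤ κ` with values of cofinality above `#Λ` -/
def IsPt (Λ : Type) (κ : ℕ → Cardinal.{0}) (y : ℕ → Ordinal.{0}) : Prop :=
  ∀ m, y m ≤ (κ m).ord ∧ Big Λ (y m)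

/-- an ideal of sets of functions which is closed under unions of families indexed by `Λ` -/
structure SIdeal (Λ : Type) (I : Set (ℕ → Ordinal.{0}) → Prop) : Prop where
  empty : I ∅
  mono : ∀ A B, A ⊆ B → I B → I A
  union : ∀ A : Λ → Set (ℕ → Ordinal.{0}), (∀ k, I (A k)) → I (⋃ k, A k)

/-- the points of rank at most `δ` -/
def rk (Λ : Type) (κ : ℕ → Cardinal.{0}) (f : Ordinal.{0} → ℕ → Ordinal.{0}) (δ : Ordinal.{0}) :
    Set (ℕ → Ordinal.{0}) :=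
  {x | IsPt Λ κ x ∧ ∃ δ' ≤ δ, Big Λ δ' ∧ Eub f δ' x}

/-- the condition of the reflection lemma -/
def Star (κ : ℕ → Cardinal.{0}) (n₁ : ℕ) (p : ℕ → Ordinal.{0})
    (𝓗 : Set (Set (ℕ → Ordinal.{0}))) : Prop :=
  ∀ (n : ℕ) (t : ℕ → Ordinal.{0}), (∀ m < n₁, t m < p m) → (∀ m ≥ n₁, t m < (κ m).ord) →
    ∃ q : ℕ → Ordinal.{0}, (∀ m, q m < (κ m).ord) ∧
      ∀ H ∈ 𝓗, ∃ x ∈ H, (∀ m, t m < x m) ∧ (∀ m < n₁, x m ≤ p m) ∧
        ∀ m, n₁ ≤ m → m < n → x m ≤ q m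

end Pool.Agent.Lib.MP_473540_gtM
end

section

/-!
The properties of the space which are used in the Boolean-valued model.
-/

namespace Pool.Agent.Lib.MP_473540_gtM

open Cardinal Set

universe u

/-- Every open cover which is a chain with respect to inclusion has a subcover indexed by `Λ`. -/
def LinL (Λ : Type) (X : Type u) [TopologicalSpace X] : Prop :=
  ∀ 𝒰 : Set (Set X), (∀ U ∈ 𝒰, IsOpen U) → IsChain (· ⊆ ·) 𝒰 → ⋃₀ 𝒰 = Set.univ →
    ∃ V : Λ → Set X, (∀ k, V k ∈ 𝒰) ∧ ⋃ k, V k = Set.univ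

/-- the properties of the space of the ground model -/
structure MuSpace (Λ : Type) (Y : Type u) [TopologicalSpace Y] : Prop where
  inf : ℵ₀ ≤ #Λ
  ne : Nonempty Y
  t1 : T1Space Y
  /-- the clopen sets are a base -/
  zd : ∀ (U : Set Y) (y : Y), IsOpen U → y ∈ U → ∃ C, IsClopen C ∧ y ∈ C ∧ C ⊆ U
  /-- complete accumulation points -/
  cap : ∀ (J : Type) (g : J → Y), (#J).IsRegular → #Λ < #J →
    ∃ y, ∀ U : Set Y, IsOpen U → y ∈ U → #{j // g j ∈ U} = #J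
  /-- there is an open cover without a subcover indexed by `Λ` -/
  not_cover : ∃ 𝒪 : Set (Set Y), (∀ O ∈ 𝒪, IsOpen O) ∧ (∀ y, ∃ O ∈ 𝒪, y ∈ O) ∧
    ∀ s : Λ → Set Y, (∀ k, s k ∈ 𝒪) → ∃ y, ∀ k, y ∉ s k
  /-- normality in the Boolean-valued model -/
  sep : ∀ (P : Type) [Preorder P] (p₀ : P) (H K : P → Set Y), #P ≤ #Λ →
    (∀ p q, p ≤ q → H q ⊆ H p) → (∀ p q, p ≤ q → K q ⊆ K p) →
    (∀ p ≤ p₀, ∀ e : Y, ∃ q ≤ p, ∃ U, IsOpen U ∧ e ∈ U ∧
      ((∀ r ≤ q, Disjoint U (H r)) ∨ ∀ r ≤ q, Disjoint U (K r))) →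
    ∃ b : Λ → Set Y, (∀ i, IsClopen (b i)) ∧ (∀ y, ∃ i, y ∈ b i) ∧
      ∀ i, ∃ q ≤ p₀, (∀ r ≤ q, Disjoint (b i) (H r)) ∨ ∀ r ≤ q, Disjoint (b i) (K r)

end Pool.Agent.Lib.MP_473540_gtM
end

section

/-!
Large cofinality and regular cardinals in elementary form.
-/

namespace Pool.Agent.Lib.MP_473540_gtM

open Cardinal Ordinal Filter Set

variable {Λ : Type}

/-- `Big` means cofinality above `#Λ` -/
theorem big_iff_cof (hΛ : ℵ₀ ≤ #Λ) {o : Ordinal.{0}} : Big Λ o ↔ #Λ < o.cof := by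
  constructor
  · intro h
    by_contra hc
    rw [not_lt] at hc
    obtain ⟨s, hs, hs'⟩ := Order.exists_cof_eq (α := Iio o)
    have h1 : Cardinal.mk s ≤ Cardinal.lift.{1} #Λ := by
      rw [hs', cof_Iio, ← lift_cof]
      exact Cardinal.lift_le.mpr hc
    have hne : s.Nonempty := by
      obtain ⟨x, hx, _⟩ := hs ⟨0, h.1⟩
      exact ⟨x, hx⟩
    have : Nonempty s := hne.to_subtype
    obtain ⟨e⟩ : Nonempty (s ↪ Λ) := by
      rw [← Cardinal.lift_mk_le']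
      simpa using h1
    have hsurj : ∃ f : Λ → s, Function.Surjective f :=
      ⟨Function.invFun e, Function.invFun_surjective e.injective⟩
    obtain ⟨f, hf⟩ := hsurj
    obtain ⟨b, hb, hb'⟩ := h.2 (fun k => ((f k : Iio o) : Ordinal)) (fun k => (f k : Iio o).2)
    obtain ⟨x, hx, hx'⟩ := hs ⟨b, hb⟩
    obtain ⟨k, hk⟩ := hf ⟨x, hx⟩
    have h2 := hb' k
    rw [hk] at h2
    exact absurd h2 (not_lt.mpr hx')
  · intro h
    refine ⟨?_, fun a ha => ?_⟩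
    · rw [← Ordinal.cof_pos]
      exact lt_trans (lt_of_lt_of_le Cardinal.aleph0_pos hΛ) h
    · refine ⟨⨆ k, a k + 1, Ordinal.iSup_add_one_lt_of_lt_cof (by simpa using h) ha, fun k => ?_⟩
      exact Ordinal.lt_iSup_add_one a k

theorem big_ord (hΛ : ℵ₀ ≤ #Λ) {c : Cardinal.{0}} (hc : c.IsRegular) (h : #Λ < c) :
    Big Λ c.ord := by
  rw [big_iff_cof hΛ, hc.cof_ord]
  exact h

theorem Big.small {o : Ordinal.{0}} (h : Big Λ o) {ι : Type} (hι : #ι ≤ #Λ)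
    (a : ι → Ordinal.{0}) (ha : ∀ i, a i < o) : ∃ b < o, ∀ i, a i < b := by
  rcases isEmpty_or_nonempty ι with he | hne
  · exact ⟨0, h.1, fun i => he.elim i⟩
  · obtain ⟨e⟩ : Nonempty (ι ↪ Λ) := hι
    have hs : Function.Surjective (Function.invFun e) := Function.invFun_surjective e.injective
    obtain ⟨b, hb, hb'⟩ := h.2 (fun k => a (Function.invFun e k)) (fun k => ha _)
    refine ⟨b, hb, fun i => ?_⟩
    obtain ⟨k, rfl⟩ := hs i
    exact hb' k

theorem Big.nat (hΛ : ℵ₀ ≤ #Λ) {o : Ordinal.{0}} (h : Big Λ o)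
    (a : ℕ → Ordinal.{0}) (ha : ∀ i, a i < o) : ∃ b < o, ∀ i, a i < b :=
  h.small (by rwa [mk_nat]) a ha

theorem Big.add_one_lt (hΛ : ℵ₀ ≤ #Λ) {o a : Ordinal.{0}} (h : Big Λ o) (ha : a < o) :
    a + 1 < o := by
  obtain ⟨b, hb, hb'⟩ := h.nat hΛ (fun _ => a) (fun _ => ha)
  exact lt_of_le_of_lt (Order.add_one_le_of_lt (hb' 0)) hb

theorem exists_of_not_big {o : Ordinal.{0}} (h : ¬ Big Λ o) (ho : 0 < o) :
    ∃ a : Λ → Ordinal.{0}, (∀ k, a k < o) ∧ ∀ b < o, ∃ k, b ≤ a k := by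
  by_contra hc
  apply h
  refine ⟨ho, fun a ha => ?_⟩
  by_contra hb
  apply hc
  refine ⟨a, ha, fun b hbo => ?_⟩
  by_contra hk
  apply hb
  exact ⟨b, hbo, fun k => lt_of_not_ge fun hle => hk ⟨k, hle⟩⟩

/-- fewer than `c` many ordinals below the regular cardinal `c` are bounded -/
theorem reg_bound {c : Cardinal.{0}} (hc : c.IsRegular) {ι : Type} (hι : #ι < c)
    (a : ι → Ordinal.{0}) (ha : ∀ i, a i < c.ord) : ∃ b < c.ord, ∀ i, a i < b := by
  exact ⟨⨆ i, a i + 1, Ordinal.iSup_add_one_lt_of_lt_cof (by rwa [hc.cof_ord]) ha,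
    fun i => Ordinal.lt_iSup_add_one a i⟩

/-- the same for families indexed by finite sequences of ordinals below a smaller cardinal -/
theorem reg_bound_fun {c d : Cardinal.{0}} (hc : c.IsRegular) (hd : ℵ₀ ≤ d) (hdc : d < c) (n : ℕ)
    (a : (Fin n → Ordinal.{0}) → Ordinal.{0})
    (ha : ∀ t : Fin n → Ordinal.{0}, (∀ i, t i < d.ord) → a t < c.ord) :
    ∃ b < c.ord, ∀ t : Fin n → Ordinal.{0}, (∀ i, t i < d.ord) → a t < b := by
  have hι : #(Fin n → d.ord.ToType) < c := by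
    refine lt_of_le_of_lt ?_ hdc
    have h1 : #(Fin n → d.ord.ToType) = d ^ n := by
      simp
    rw [h1]
    exact Cardinal.power_nat_le hd
  obtain ⟨b, hb, hb'⟩ := reg_bound hc hι
    (fun s => a (fun i => ((Ordinal.ToType.mk.symm (s i) : Iio d.ord) : Ordinal)))
    (fun s => ha _ (fun i => (Ordinal.ToType.mk.symm (s i)).2))
  refine ⟨b, hb, fun t ht => ?_⟩
  have h2 := hb' (fun i => Ordinal.ToType.mk ⟨t i, ht i⟩)
  simpa using h2

end Pool.Agent.Lib.MP_473540_gtM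
end
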