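import Mathlib
import Pool.Agent.Lib.MP_473540_gtM.BigCof
import Pool.Agent.Lib.MP_473540_gtM.Sc.Rec

section

/-!
Complete accumulation points; transport along homeomorphisms.
-/

namespace Pool.Agent.Lib.MP_473540_gtM

open Cardinal Ordinal Filter Set

universe u v

/-- **Complete accumulation points** of families of regular cardinality above `#Λ`. -/
theorem LinL.exists_cap {Λ : Type} {X : Type u} [TopologicalSpace X] (hX : LinL Λ X)
    (J : Type) (g : J → X) (hJ : (#J).IsRegular) (hJ' : #Λ < #J) :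
    ∃ x, ∀ U : Set X, IsOpen U → x ∈ U → #{j // g j ∈ U} = #J := by
  by_contra hcon
  push Not at hcon
  obtain ⟨r, wo, hr⟩ := Cardinal.ord_eq J
  obtain ⟨e, he, hes⟩ : ∃ e : J → Ordinal.{0}, (∀ a, e a < (#J).ord) ∧
      ∀ o < (#J).ord, ∃ a, e a = o := by
    refine ⟨fun a => Ordinal.typein r a, fun a => ?_, fun o ho => ?_⟩
    · rw [hr]
      exact Ordinal.typein_lt_type r a
    · rw [hr] at ho
      exact Ordinal.typein_surj r ho
  obtain ⟨V, hV⟩ : ∃ V : Ordinal.{0} → Set X, V = fun o =>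
      ⋃₀ {U | IsOpen U ∧ ∀ a : J, g a ∈ U → e a ≤ o} := ⟨_, rfl⟩
  have hVmem : ∀ o x, x ∈ V o ↔ ∃ U, (IsOpen U ∧ ∀ a : J, g a ∈ U → e a ≤ o) ∧ x ∈ U := by
    intro o x
    rw [hV]
    exact Set.mem_sUnion
  have hVmono : ∀ o o', o ≤ o' → V o ⊆ V o' := by
    intro o o' hoo x hx
    rw [hVmem] at hx ⊢
    obtain ⟨U, ⟨hU1, hU2⟩, hxU⟩ := hx
    exact ⟨U, ⟨hU1, fun a ha => (hU2 a ha).trans hoo⟩, hxU⟩
  have hVe : ∀ o (a : J), g a ∈ V o → e a ≤ o := by
    intro o a ha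
    rw [hVmem] at ha
    obtain ⟨U, ⟨-, hU2⟩, hxU⟩ := ha
    exact hU2 a hxU
  obtain ⟨W, hW, hcov⟩ := hX {W | ∃ o < (#J).ord, W = V o} (by
      rintro _ ⟨o, -, rfl⟩
      rw [hV]
      exact isOpen_sUnion fun U hU => hU.1) (by
      rintro _ ⟨o, -, rfl⟩ _ ⟨o', -, rfl⟩ -
      rcases le_total o o' with h | h
      · exact Or.inl (hVmono _ _ h)
      · exact Or.inr (hVmono _ _ h)) (by
      refine Set.eq_univ_of_forall fun x => ?_
      obtain ⟨U, hU, hxU, hne⟩ := hcon x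
      have hlt : #{j // g j ∈ U} < #J := lt_of_le_of_ne (Cardinal.mk_subtype_le _) hne
      have h1 := iSup_lt_ord_of_isRegular hJ hlt
        (f := fun z : {j // g j ∈ U} => e z.1) fun z => he _
      refine Set.mem_sUnion.2 ⟨V (⨆ z : {j // g j ∈ U}, e z.1), ⟨_, h1, rfl⟩, ?_⟩
      rw [hVmem]
      refine ⟨U, ⟨hU, fun a ha => ?_⟩, hxU⟩
      exact Ordinal.le_iSup (fun z : {j // g j ∈ U} => e z.1) ⟨a, ha⟩)
  choose o ho1 ho2 using hW
  have h2 := iSup_lt_ord_of_isRegular hJ hJ' (f := o) ho1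
  have h3 : Order.succ (⨆ k, o k) < (#J).ord :=
    (Cardinal.isSuccLimit_ord hJ.aleph0_le).succ_lt h2
  obtain ⟨a, ha⟩ := hes _ h3
  have h4 : g a ∈ ⋃ k, W k := by
    rw [hcov]
    trivial
  obtain ⟨k, hk⟩ := Set.mem_iUnion.1 h4
  have h5 : e a ≤ o k := hVe _ _ (by rw [← ho2 k]; exact hk)
  have h6 : o k ≤ ⨆ k, o k := Ordinal.le_iSup o k
  rw [ha] at h5
  exact absurd (lt_of_lt_of_le (Order.lt_succ _) (h5.trans h6)) (lt_irrefl _)

theorem LinL.homeo {Λ : Type} {X : Type u} {Y : Type v} [TopologicalSpace X] [TopologicalSpace Y]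
    (φ : X ≃ₜ Y) (hX : LinL Λ X) : LinL Λ Y := by
  intro 𝒰 hopen hchain hcov
  obtain ⟨V, hV, hcov'⟩ := hX ((fun U => φ ⁻¹' U) '' 𝒰) (by
      rintro _ ⟨U, hU, rfl⟩
      exact (hopen U hU).preimage φ.continuous) (by
      rintro _ ⟨U, hU, rfl⟩ _ ⟨U', hU', rfl⟩ hne
      have hne' : U ≠ U' := fun h => hne (by rw [h])
      rcases hchain hU hU' hne' with h | h
      · exact Or.inl (Set.preimage_mono h)
      · exact Or.inr (Set.preimage_mono h)) (by
      refine Set.eq_univ_of_forall fun x => ?_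
      have h1 : φ x ∈ ⋃₀ 𝒰 := by
        rw [hcov]
        trivial
      obtain ⟨U, hU, hxU⟩ := Set.mem_sUnion.1 h1
      exact Set.mem_sUnion.2 ⟨_, ⟨U, hU, rfl⟩, hxU⟩)
  choose U hU hUV using hV
  refine ⟨U, hU, Set.eq_univ_of_forall fun y => ?_⟩
  have h1 : φ.symm y ∈ ⋃ k, V k := by
    rw [hcov']
    trivial
  obtain ⟨k, hk⟩ := Set.mem_iUnion.1 h1
  refine Set.mem_iUnion.2 ⟨k, ?_⟩
  rw [← hUV k] at hk
  simpa using hk

end Pool.Agent.Lib.MP_473540_gtM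
end

section

/-!
Increasing sequences of cofinality above `#Λ` have exact upper bounds if `#Λ ^ ℵ₀ = #Λ` (a closing
off argument).
-/

namespace Pool.Agent.Lib.MP_473540_gtM

open Cardinal Ordinal Filter Set

/-- the arities -/
private def cArity {J : Type} : Option J → Type
  | none => Empty
  | some _ => ℕ

/-- the evaluation of one step -/
private def cStep {J : Type} (F : J → (ℕ → Ordinal.{0}) → Ordinal.{0}) :
    (Σ a : Option J, cArity a → Ordinal.{0}) → Ordinal.{0}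
  | ⟨none, _⟩ => 0
  | ⟨some k, g⟩ => F k g

/-- closing off under few operations with countably many arguments -/
theorem exists_closed {Λ : Type} (hΛ : ℵ₀ ≤ #Λ) (hpow : #Λ ^ ℵ₀ = #Λ) {J : Type} (hJ : #J ≤ #Λ)
    (F : J → (ℕ → Ordinal.{0}) → Ordinal.{0}) :
    ∃ (W : Type) (φ : W → Ordinal.{0}), Nonempty W ∧ #W ≤ #Λ ∧
      ∀ (k : J) (g : ℕ → W), ∃ w, φ w = F k (fun n => φ (g n)) := by
  refine ⟨WType (cArity (J := J)), WType.elim Ordinal.{0} (cStep F),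
    ⟨WType.mk none (fun x : Empty => x.elim)⟩, ?_, ?_⟩
  · refine WType.cardinalMk_le_of_le ?_
    have h1 : ∀ a : Option J, #Λ ^ #(cArity a) ≤ #Λ := by
      intro a
      rcases a with _ | k
      · have : #(cArity (none : Option J)) = 0 := by
          show #Empty = 0
          exact mk_eq_zero _
        rw [this, power_zero]
        exact one_le_aleph0.trans hΛ
      · have : #(cArity (some k)) = ℵ₀ := by
          show #ℕ = ℵ₀
          exact mk_nat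
        rw [this, hpow]
    have h2 : #(Option J) ≤ #Λ := by
      rw [mk_option]
      exact (add_le_add_left hJ 1).trans (add_one_eq hΛ).le
    calc sum (fun a : Option J => #Λ ^ #(cArity a))
        ≤ sum (fun _ : Option J => #Λ) := sum_le_sum _ _ h1
      _ = #(Option J) * #Λ := sum_const' _ _
      _ ≤ #Λ * #Λ := mul_le_mul' h2 le_rfl
      _ = #Λ := mul_eq_self hΛ
  · intro k g
    exact ⟨WType.mk (some k) g, rfl⟩

/-- **Increasing sequences of cofinality above `#Λ` have exact upper bounds.** -/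
theorem exists_eub_of_lt {Λ : Type} (hΛ : ℵ₀ ≤ #Λ) (hpow : #Λ ^ ℵ₀ = #Λ)
    {f : Ordinal.{0} → ℕ → Ordinal.{0}} {δ : Ordinal.{0}} (hc : #Λ < δ.cof)
    (B : ℕ → Ordinal.{0}) (hB : ∀ β < δ, ∀ n, f β n < B n)
    (hinc : ∀ α β, α < β → β < δ → ∀ᶠ n in atTop, f α n < f β n) :
    ∃ v : ℕ → Ordinal.{0}, (∀ᶠ m in atTop, #Λ < (v m).cof) ∧ Eub f δ v := by
  classical
  have hBδ : Big Λ δ := (big_iff_cof hΛ).2 hc
  -- witnesses
  have hwit : ∀ g : ℕ → Ordinal.{0}, ∃ h : ℕ → Ordinal.{0},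
      ¬ (∀ h : ℕ → Ordinal.{0}, (∀ᶠ m in atTop, h m < g m) →
        ∃ β < δ, ∀ᶠ m in atTop, h m < f β m) →
      (∀ᶠ m in atTop, h m < g m) ∧ ¬ ∃ β < δ, ∀ᶠ m in atTop, h m < f β m := by
    intro g
    by_cases hg : ∀ h : ℕ → Ordinal.{0}, (∀ᶠ m in atTop, h m < g m) →
        ∃ β < δ, ∀ᶠ m in atTop, h m < f β m
    · exact ⟨fun _ => 0, fun h => absurd hg h⟩
    · push Not at hg
      obtain ⟨h, h1, h2⟩ := hg
      refine ⟨h, fun _ => ⟨h1, ?_⟩⟩
      push Not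
      exact h2
  choose wit hwit using hwit
  have hseq : ∀ γ : Ordinal.{0}, ∃ a : Λ → Ordinal.{0}, ¬ Big Λ γ → 0 < γ →
      (∀ k, a k < γ) ∧ ∀ b < γ, ∃ k, b ≤ a k := by
    intro γ
    by_cases hγ : Big Λ γ
    · exact ⟨fun _ => 0, fun h => absurd hγ h⟩
    · by_cases h0 : 0 < γ
      · obtain ⟨a, ha⟩ := exists_of_not_big hγ h0
        exact ⟨a, fun _ _ => ha⟩
      · exact ⟨fun _ => 0, fun _ h => absurd h h0⟩
  choose seq hseq using hseq
  have hub : ∀ g : ℕ → Ordinal.{0}, ∃ β < δ,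
      (¬ ∀ β < δ, ∀ᶠ m in atTop, f β m < g m) → ¬ ∀ᶠ m in atTop, f β m < g m := by
    intro g
    by_cases hg : ∀ β < δ, ∀ᶠ m in atTop, f β m < g m
    · exact ⟨0, hBδ.1, fun h => absurd hg h⟩
    · have hg' := hg
      push Not at hg'
      obtain ⟨β, hβ, h⟩ := hg'
      refine ⟨β, hβ, fun _ => ?_⟩
      rw [Filter.not_eventually]
      simpa only [not_lt] using h
  choose ub hubδ hub using hub
  have hJ : #(ℕ ⊕ ℕ ⊕ Λ) ≤ #Λ := by
    simp only [mk_sum, Cardinal.lift_id, mk_nat]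
    refine (add_le_add hΛ (add_le_add hΛ le_rfl)).trans ?_
    rw [add_eq_self hΛ, add_eq_self hΛ]
  obtain ⟨W, φ, ⟨w₀⟩, hW, hφ⟩ := exists_closed hΛ hpow hJ (fun k g =>
    Sum.elim (fun n => B n) (Sum.elim (fun n => wit g n) (fun l => seq (g 0) l)) k)
  have hφκ : ∀ n, ∃ w, φ w = B n := fun n => hφ (Sum.inl n) (fun _ => w₀)
  have hφwit : ∀ (g : ℕ → W) (n : ℕ), ∃ w, φ w = wit (fun n => φ (g n)) n := fun g n =>
    hφ (Sum.inr (Sum.inl n)) g
  have hφseq : ∀ (w' : W) (l : Λ), ∃ w, φ w = seq (φ w') l := fun w' l =>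
    hφ (Sum.inr (Sum.inr l)) (fun _ => w')
  -- the bound
  have hcard : #(ℕ → W) ≤ #Λ := by
    rw [← Cardinal.power_def, mk_nat]
    exact (power_le_power_right hW).trans (le_of_eq hpow)
  obtain ⟨β₁, hβ₁, hβ₁'⟩ : ∃ β₁ < δ, ∀ g : ℕ → W, ub (fun n => φ (g n)) < β₁ := by
    refine ⟨⨆ g : ℕ → W, ub (fun n => φ (g n)) + 1, ?_, fun g => Ordinal.lt_iSup_add_one _ g⟩
    exact Ordinal.iSup_add_one_lt_of_lt_cof (hcard.trans_lt hc) fun g => hubδ _
  -- the exact upper bound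
  have hmin : ∀ n, ∃ w, f β₁ n ≤ φ w ∧ ∀ w', f β₁ n ≤ φ w' → φ w ≤ φ w' := by
    intro n
    obtain ⟨w, hw⟩ := hφκ n
    obtain ⟨w', hw', hw''⟩ := WellFounded.has_min (InvImage.wf φ Ordinal.lt_wf)
      {w | f β₁ n ≤ φ w} ⟨w, by
        rw [mem_ofPred_eq, hw]
        exact (hB β₁ hβ₁ n).le⟩
    exact ⟨w', hw', fun w'' h => not_lt.1 (hw'' w'' h)⟩
  choose g hg₁ hg₂ using hmin
  have hUB : ∀ β < δ, ∀ᶠ m in atTop, f β m < φ (g m) := by
    by_contra hcon
    refine hub _ hcon ?_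
    filter_upwards [hinc _ β₁ (hβ₁' g) hβ₁] with m hm
    exact hm.trans_le (hg₁ m)
  have hEX : ∀ h : ℕ → Ordinal.{0}, (∀ᶠ m in atTop, h m < φ (g m)) →
      ∃ β < δ, ∀ᶠ m in atTop, h m < f β m := by
    by_contra hcon
    obtain ⟨h1, h2⟩ := hwit _ hcon
    refine h2 ⟨β₁, hβ₁, ?_⟩
    filter_upwards [h1] with m hm
    by_contra h3
    obtain ⟨w, hw⟩ := hφwit g m
    have h4 := hg₂ m w (by rw [hw]; exact not_lt.1 h3)
    rw [hw] at h4
    exact absurd hm (not_lt.2 h4)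
  refine ⟨fun n => φ (g n), ?_, fun h => ⟨hEX h, ?_⟩⟩
  · filter_upwards [hUB β₁ hβ₁] with m hm
    rw [← big_iff_cof hΛ]
    by_contra hB
    obtain ⟨h1, h2⟩ := hseq _ hB (zero_le.trans_lt hm)
    obtain ⟨k, hk⟩ := h2 _ hm
    obtain ⟨w, hw⟩ := hφseq (g m) k
    have h4 := hg₂ m w (by rw [hw]; exact hk)
    rw [hw] at h4
    exact absurd (h1 k) (not_lt.2 h4)
  · rintro ⟨β, hβ, h1⟩
    filter_upwards [h1, hUB β hβ] with m hm hm'
    exact hm.trans hm'

/-- if `#Λ ^ ℵ₀ = #Λ` then all points of cofinality above `#Λ` have exact upper bounds -/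
theorem Scale.toEubScale {Λ : Type} (hpow : #Λ ^ ℵ₀ = #Λ) {κ : ℕ → Cardinal.{0}}
    {lam : Cardinal.{0}} {f : Ordinal.{0} → ℕ → Ordinal.{0}} (S : Scale Λ κ lam f) :
    EubScale Λ κ lam f :=
  { S with
    eub := fun δ hδ hc => exists_eub_of_lt S.inf hpow hc (fun n => (κ n).ord)
      (fun β hβ n => S.mem β (hβ.trans hδ) n) fun α β hαβ hβ => S.inc α β hαβ (hβ.trans hδ) }

end Pool.Agent.Lib.MP_473540_gtM
end

section

/-!
A sequence of regular cardinals whose supremum is a strong limit.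
-/

namespace Pool.Agent.Lib.MP_473540_gtM

open Cardinal Ordinal Filter Set

/-- regular cardinals `c 0 < c 1 < ...` above `#Λ` with supremum `K`, a strong limit -/
structure CSeq (Λ : Type) (c : ℕ → Cardinal.{0}) (K : Cardinal.{0}) : Prop where
  inf : ℵ₀ ≤ #Λ
  reg : ∀ n, (c n).IsRegular
  mono : StrictMono c
  unc : #Λ < c 0
  lt : ∀ n, c n < K
  ex : ∀ θ < K, ∃ n, θ < c n
  pow : ∀ θ < K, θ ^ ℵ₀ < K

theorem exists_cSeq (Λ : Type) (hΛ : ℵ₀ ≤ #Λ) : ∃ c K, CSeq Λ c K := by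
  -- `c 0 = Order.succ #Λ`, `c (n + 1) = Order.succ (2 ^ c n)` (`Nat.rec`), `K = ⨆ n, c n`
  -- (`Cardinal.bddAbove_range`, `lt_ciSup_iff`, `le_ciSup`); successor cardinals are regular
  -- (`isRegular_succ`). `pow`: `θ < c n`, `θ ^ ℵ₀ ≤ (2 ^ c n) ^ ℵ₀ = 2 ^ (c n * ℵ₀) = 2 ^ c n < c (n + 1)`.
  let c : ℕ → Cardinal.{0} := fun n => Nat.rec (Order.succ #Λ) (fun _ x => Order.succ (2 ^ x)) n
  have c0 : c 0 = Order.succ #Λ := rfl
  have cs : ∀ n, c (n + 1) = Order.succ (2 ^ c n) := fun n => rfl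
  have hinf : ∀ n, ℵ₀ ≤ c n := by
    intro n
    induction n with
    | zero => rw [c0]; exact hΛ.trans (Order.le_succ _)
    | succ n ih =>
      rw [cs]
      exact ih.trans ((Cardinal.cantor _).le.trans (Order.le_succ _))
  have hreg : ∀ n, (c n).IsRegular := by
    intro n
    cases n with
    | zero => rw [c0]; exact isRegular_succ hΛ
    | succ n =>
      rw [cs]
      exact isRegular_succ ((hinf n).trans (Cardinal.cantor _).le)
  have hlt : ∀ n, c n < c (n + 1) := by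
    intro n
    rw [cs]
    exact (Cardinal.cantor _).trans_le (Order.le_succ _)
  have hpow : ∀ n, 2 ^ c n < c (n + 1) := by
    intro n
    rw [cs]
    exact Order.lt_succ _
  have hbdd : BddAbove (range c) := Cardinal.bddAbove_of_small
  refine ⟨c, ⨆ n, c n, hΛ, hreg, strictMono_nat_of_lt_succ hlt, ?_, ?_, ?_, ?_⟩
  · rw [c0]; exact Order.lt_succ _
  · intro n
    exact (hlt n).trans_le (le_ciSup hbdd (n + 1))
  · intro θ hθ
    exact (lt_ciSup_iff hbdd).1 hθ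
  · intro θ hθ
    obtain ⟨n, hn⟩ := (lt_ciSup_iff hbdd).1 hθ
    calc θ ^ ℵ₀ ≤ (2 ^ c n) ^ ℵ₀ :=
          Cardinal.power_le_power_right (hn.le.trans (Cardinal.cantor _).le)
      _ = 2 ^ (c n * ℵ₀) := by rw [Cardinal.power_mul]
      _ = 2 ^ c n := by rw [Cardinal.mul_aleph0_eq (hinf n)]
      _ < c (n + 1) := hpow n
      _ ≤ ⨆ n, c n := le_ciSup hbdd (n + 1)

end Pool.Agent.Lib.MP_473540_gtM
end

section

/-!
Monotone cofinal functions.
-/

namespace Pool.Agent.Lib.MP_473540_gtM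

open Cardinal Ordinal Filter Set

/-- **Monotone cofinal functions.** The cofinality of `v` is a regular cardinal if it is infinite,
and there is a monotone cofinal function. -/
theorem exists_fund {v : Ordinal.{0}} (hv : ℵ₀ ≤ v.cof) :
    (v.cof).IsRegular ∧ ∃ C : Ordinal.{0} → Ordinal.{0}, (∀ ξ < v.cof.ord, C ξ < v) ∧
      (∀ ξ ξ', ξ ≤ ξ' → ξ' < v.cof.ord → C ξ ≤ C ξ') ∧
      ∀ a < v, ∃ ξ < v.cof.ord, a ≤ C ξ := by
  refine ⟨⟨hv, (cof_ord_cof v).ge⟩, ?_⟩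
  obtain ⟨f, hf⟩ := exists_isFundamentalSeq (o := v) (a := v.cof.ord) rfl
  refine ⟨fun ξ => if h : ξ < v.cof.ord then (f ⟨ξ, h⟩ : Ordinal.{0}) else 0, ?_, ?_, ?_⟩
  · intro ξ hξ
    simp only [dif_pos hξ]
    exact (f ⟨ξ, hξ⟩).2
  · intro ξ ξ' h hξ'
    have hξ : ξ < v.cof.ord := h.trans_lt hξ'
    simp only [dif_pos hξ, dif_pos hξ']
    have h2 : (⟨ξ, hξ⟩ : Iio v.cof.ord) ≤ ⟨ξ', hξ'⟩ := h
    exact hf.strictMono.monotone h2
  · intro a ha
    obtain ⟨_, ⟨d, rfl⟩, hd⟩ := hf.isCofinal_range ⟨a, ha⟩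
    have hd2 : (d : Ordinal.{0}) < v.cof.ord := d.2
    refine ⟨d, hd2, ?_⟩
    simp only [dif_pos hd2]
    exact hd

end Pool.Agent.Lib.MP_473540_gtM
end

section

/-!
Pulling back a sequence along cofinal functions.
-/

namespace Pool.Agent.Lib.MP_473540_gtM

open Cardinal Ordinal Filter Set

/-- **Pulling back an increasing sequence with exact upper bound `v` along a subsequence and cofinal
functions.** -/
theorem exists_pull {lam : Ordinal.{0}} (hlam : ∀ α < lam, α + 1 < lam) (hlam0 : 0 < lam)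
    {g : Ordinal.{0} → ℕ → Ordinal.{0}} {v : ℕ → Ordinal.{0}}
    (hinc : ∀ α β, α < β → β < lam → ∀ᶠ n in atTop, g α n < g β n)
    (hv : Eub g lam v) {s : ℕ → ℕ} (hs : StrictMono s) {κ : ℕ → Cardinal.{0}}
    (hκ : ∀ k, ℵ₀ ≤ κ k) {C : ℕ → Ordinal.{0} → Ordinal.{0}}
    (hC1 : ∀ k, ∀ ξ < (κ k).ord, C k ξ < v (s k))
    (hC2 : ∀ k ξ ξ', ξ ≤ ξ' → ξ' < (κ k).ord → C k ξ ≤ C k ξ')
    (hC3 : ∀ k, ∀ a < v (s k), ∃ ξ < (κ k).ord, a ≤ C k ξ) :
    ∃ f : Ordinal.{0} → ℕ → Ordinal.{0}, (∀ α k, f α k < (κ k).ord) ∧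
      (∀ α β, α ≤ β → β < lam → ∀ᶠ k in atTop, f α k ≤ f β k) ∧
      ∀ h : ℕ → Ordinal.{0}, (∀ k, h k < (κ k).ord) → ∃ α < lam, ∀ᶠ k in atTop, h k < f α k := by
  classical
  have hgv : ∀ α < lam, ∀ᶠ n in atTop, g α n < v n := fun α hα =>
    (hv (g α)).2 ⟨α + 1, hlam α hα, hinc α (α + 1) (Order.lt_add_one_iff.2 le_rfl) (hlam α hα)⟩
  have hts : Tendsto s atTop atTop := hs.tendsto_atTop
  have h0 : ∀ᶠ n in atTop, 0 < v n := by
    filter_upwards [hgv 0 hlam0] with n hn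
    exact lt_of_le_of_lt zero_le hn
  let f : Ordinal.{0} → ℕ → Ordinal.{0} := fun α k =>
    if g α (s k) < v (s k) then sInf {ξ | g α (s k) ≤ C k ξ} else 0
  have hf1 : ∀ α k, f α k < (κ k).ord := by
    intro α k
    by_cases h : g α (s k) < v (s k)
    · obtain ⟨ξ, hξ, hξ'⟩ := hC3 k _ h
      have e : f α k = sInf {ξ | g α (s k) ≤ C k ξ} := if_pos h
      rw [e]
      exact lt_of_le_of_lt (csInf_le' hξ') hξ
    · have e : f α k = 0 := if_neg h
      rw [e]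
      have h1 : (0 : Cardinal.{0}) < κ k := lt_of_lt_of_le Cardinal.aleph0_pos (hκ k)
      exact Cardinal.ord_pos.2 h1
  have hf2 : ∀ α k, g α (s k) < v (s k) → g α (s k) ≤ C k (f α k) := by
    intro α k h
    obtain ⟨ξ, hξ, hξ'⟩ := hC3 k _ h
    have e : f α k = sInf {ξ | g α (s k) ≤ C k ξ} := if_pos h
    rw [e]
    exact csInf_mem (s := {ξ | g α (s k) ≤ C k ξ}) ⟨ξ, hξ'⟩
  have hf3 : ∀ α k ξ, g α (s k) ≤ C k ξ → f α k ≤ ξ := by
    intro α k ξ hξ
    by_cases h : g α (s k) < v (s k)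
    · have e : f α k = sInf {ξ | g α (s k) ≤ C k ξ} := if_pos h
      rw [e]
      exact csInf_le' hξ
    · have e : f α k = 0 := if_neg h
      rw [e]
      exact zero_le
  refine ⟨f, hf1, ?_, ?_⟩
  · intro α β hαβ hβ
    rcases eq_or_lt_of_le hαβ with rfl | hlt
    · exact Eventually.of_forall fun k => le_rfl
    · filter_upwards [hts.eventually (hinc α β hlt hβ), hts.eventually (hgv β hβ)] with k h1 h2
      exact hf3 α k _ (h1.le.trans (hf2 β k h2))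
  · intro h hh
    let h' : ℕ → Ordinal.{0} := fun n =>
      if hn : ∃ k, s k = n then C hn.choose (h hn.choose) else 0
    have e' : ∀ k, h' (s k) = C k (h k) := by
      intro k
      have hn : ∃ l, s l = s k := ⟨k, rfl⟩
      have e1 : hn.choose = k := hs.injective hn.choose_spec
      have e2 : h' (s k) = C hn.choose (h hn.choose) := dif_pos hn
      rw [e2, e1]
    have hlt : ∀ᶠ n in atTop, h' n < v n := by
      filter_upwards [h0] with n hn
      by_cases hk : ∃ k, s k = n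
      · obtain ⟨k, rfl⟩ := hk
        rw [e']
        exact hC1 k _ (hh k)
      · have e2 : h' n = 0 := dif_neg hk
        rw [e2]
        exact hn
    obtain ⟨β, hβ, hβ'⟩ := (hv h').1 hlt
    refine ⟨β, hβ, ?_⟩
    filter_upwards [hts.eventually hβ', hts.eventually (hgv β hβ)] with k h1 h2
    rw [e'] at h1
    by_contra hc
    rw [not_lt] at hc
    exact absurd (h1.trans_le ((hf2 β k h2).trans (hC2 k _ _ hc (hh k)))) (lt_irrefl _)

end Pool.Agent.Lib.MP_473540_gtM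
end

section

/-!
The product of the `c n` modulo finite is directed.
-/

namespace Pool.Agent.Lib.MP_473540_gtM

open Cardinal Ordinal Filter Set

variable {Λ : Type} {c : ℕ → Cardinal.{0}} {K : Cardinal.{0}}

/-- **At most `K` many functions in the product have an upper bound modulo finite.** -/
theorem CSeq.directed (h : CSeq Λ c K) {J : Type} (hJ : #J ≤ K) (u : J → ℕ → Ordinal.{0})
    (hu : ∀ i n, u i n < (c n).ord) :
    ∃ v : ℕ → Ordinal.{0}, (∀ n, v n < (c n).ord) ∧ ∀ i, ∀ᶠ n in atTop, u i n < v n := by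
  -- `hJ` gives an injection `e : J → K.ord.ToType`, so an injective function `e : J → Ordinal` with
  -- `e i < K.ord`. For every `i` there is `m` with `e i < (c m).ord` (`h.ex` for `(e i).card`,
  -- `lt_ord`). For `n` let `J n = {i | e i < (c (n - 1)).ord}` if `n ≠ 0`, `∅` if `n = 0`:
  -- `#(J n) ≤ c (n - 1) < c n` (injection to `Iio (c (n-1)).ord`, `mk_Iio_ordinal`, lift!) so
  -- `reg_bound` gives `v n < (c n).ord` above all `u i n`, `i ∈ J n`. If `e i < (c m).ord` then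
  -- `i ∈ J n` for all `n ≥ m + 1`.
  have hJ' : #J ≤ #K.ord.ToType := by
    rw [Cardinal.mk_ord_toType]
    exact hJ
  obtain ⟨e⟩ := hJ'
  let o : J → Ordinal.{0} := fun i => ((Ordinal.ToType.mk.symm (e i) : Iio K.ord) : Ordinal)
  have hoK : ∀ i, o i < K.ord := fun i => (Ordinal.ToType.mk.symm (e i)).2
  have hoinj : Function.Injective o := by
    intro i j hij
    exact e.injective (Ordinal.ToType.mk.symm.injective (Subtype.ext hij))
  have hex : ∀ i, ∃ m, o i < (c m).ord := by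
    intro i
    obtain ⟨m, hm⟩ := h.ex (o i).card (lt_ord.1 (hoK i))
    exact ⟨m, lt_ord.2 hm⟩
  have hcard : ∀ n, #{i : J // o i < (c n).ord} ≤ c n := by
    intro n
    have h1 : #{i : J // o i < (c n).ord} ≤ #(c n).ord.ToType := by
      refine Cardinal.mk_le_of_injective
        (f := fun i : {i : J // o i < (c n).ord} => Ordinal.ToType.mk ⟨o i.1, i.2⟩) ?_
      intro i j hij
      have h2 := Ordinal.ToType.mk.injective hij
      exact Subtype.ext (hoinj (Subtype.mk.inj h2))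
    rwa [Cardinal.mk_ord_toType] at h1
  have key : ∀ n, ∃ b < (c (n + 1)).ord, ∀ i, o i < (c n).ord → u i (n + 1) < b := by
    intro n
    obtain ⟨b, hb, hb'⟩ := reg_bound (h.reg (n + 1)) (ι := {i : J // o i < (c n).ord})
      ((hcard n).trans_lt (h.mono (Nat.lt_succ_self n))) (fun i => u i.1 (n + 1))
      (fun i => hu i.1 (n + 1))
    exact ⟨b, hb, fun i hi => hb' ⟨i, hi⟩⟩
  choose b hb hb' using key
  refine ⟨fun n => Nat.casesOn n 0 b, ?_, fun i => ?_⟩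
  · intro n
    cases n with
    | zero =>
      change (0 : Ordinal.{0}) < (c 0).ord
      rw [lt_ord, Ordinal.card_zero]
      exact (h.reg 0).pos
    | succ n => exact hb n
  · obtain ⟨m, hm⟩ := hex i
    filter_upwards [eventually_ge_atTop (m + 1)] with n hn
    obtain ⟨k, rfl⟩ : ∃ k, n = k + 1 := ⟨n - 1, by omega⟩
    refine hb' k i (hm.trans_le ?_)
    exact ord_le_ord.2 (h.mono.monotone (by omega))

end Pool.Agent.Lib.MP_473540_gtM
end

section

/-!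
The cofinalities of the values of the exact upper bound tend to `K`.
-/

namespace Pool.Agent.Lib.MP_473540_gtM

open Cardinal Ordinal Filter Set

variable {Λ : Type} {c : ℕ → Cardinal.{0}} {K : Cardinal.{0}}

/-- **The cofinalities of the values of the exact upper bound tend to `K`.** -/
theorem CSeq.large (h : CSeq Λ c K) {g : Ordinal.{0} → ℕ → Ordinal.{0}}
    (hinc : ∀ α β, α < β → β < (Order.succ K).ord → ∀ᶠ n in atTop, g α n < g β n)
    {v : ℕ → Ordinal.{0}} (hv : Eub g (Order.succ K).ord v) (hpos : ∀ᶠ n in atTop, 0 < v n)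
    {θ : Cardinal.{0}} (hθ : θ < K) : ∀ᶠ n in atTop, θ < (v n).cof := by
  -- We may assume `1 ≤ θ` (replace `θ` by `max θ ℵ₀ < K`). Suppose the claim fails, so
  -- `D = {n | (v n).cof ≤ θ}` is infinite (`∃ᶠ n in atTop, (v n).cof ≤ θ`). Let `T = θ.ord.ToType`
  -- (`#T = θ`). For `n ∈ D` with `0 < v n` there is `C n : T → Ordinal` with `C n t < v n` and
  -- `∀ a < v n, ∃ t, a ≤ C n t` (a cofinal subset of `Iio (v n)` of cardinality `≤ θ`,
  -- `Order.exists_cof_eq (α := Iio (v n))` as in the proof of `big_iff_cof` in BigCof.lean).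
  -- For `x : ℕ → T` let `h x n = C n (x n)` if `n ∈ D` and `0 < v n`, otherwise `0`. `h x n < v n`
  -- for almost all `n`, so by `hv` there is `b x < (succ K).ord` with `h x n < g (b x) n` for almost
  -- all `n`. `#(ℕ → T) = θ ^ ℵ₀ < K` (`h.pow`), so (`reg_bound` with `isRegular_succ`; `ℵ₀ ≤ K`) there
  -- is `b < (succ K).ord` above all `b x`. `g b n < v n` for almost all `n`: `hv` for `h = g b`
  -- with `β = b + 1` (`b + 1 < (succ K).ord`, limit ordinal). For `n ∈ D` with `g b n < v n` choose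
  -- `x n` with `g b n ≤ C n (x n)` (otherwise arbitrary). For infinitely many `n`:
  -- `g b n ≤ h x n < g (b x) n < g b n` (`hinc`), contradiction.
  classical
  have hK : ℵ₀ ≤ K := h.inf.trans (h.unc.le.trans (h.lt 0).le)
  have hθ' : max θ ℵ₀ < K := max_lt hθ (h.inf.trans_lt (h.unc.trans (h.lt 0)))
  obtain ⟨T, hT⟩ : ∃ T : Type, #T = max θ ℵ₀ := ⟨(max θ ℵ₀).out, mk_out _⟩
  have hTinf : ℵ₀ ≤ #T := by rw [hT]; exact le_max_right _ _
  have hne : Nonempty T := by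
    rw [← mk_ne_zero_iff]
    exact (aleph0_pos.trans_le hTinf).ne'
  obtain ⟨t₀⟩ := hne
  by_contra hcon
  have hfreq : ∃ᶠ n in atTop, ¬ Big T (v n) := by
    rw [Filter.not_eventually] at hcon
    refine hcon.mono fun n hn => ?_
    rw [big_iff_cof hTinf, hT, not_lt]
    exact (not_lt.1 hn).trans (le_max_left _ _)
  have hseq : ∀ n : ℕ, ∃ a : T → Ordinal.{0}, ¬ Big T (v n) → 0 < v n →
      (∀ k, a k < v n) ∧ ∀ b < v n, ∃ k, b ≤ a k := by
    intro n
    by_cases hγ : Big T (v n)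
    · exact ⟨fun _ => 0, fun h => absurd hγ h⟩
    · by_cases h0 : 0 < v n
      · obtain ⟨a, ha⟩ := exists_of_not_big hγ h0
        exact ⟨a, fun _ _ => ha⟩
      · exact ⟨fun _ => 0, fun _ h => absurd h h0⟩
  choose C hC using hseq
  have hb : ∀ x : ℕ → T, ∃ b < (Order.succ K).ord,
      ∀ᶠ n in atTop, (if ¬ Big T (v n) then C n (x n) else 0) < g b n := by
    intro x
    refine (hv _).1 ?_
    filter_upwards [hpos] with n hn
    by_cases hB : Big T (v n)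
    · rw [if_neg (not_not.2 hB)]
      exact hn
    · rw [if_pos hB]
      exact (hC n hB hn).1 _
  choose b hb1 hb2 using hb
  have hcard : #(ℕ → T) < Order.succ K := by
    rw [← Cardinal.power_def, mk_nat, hT]
    exact (h.pow _ hθ').trans (Order.lt_succ K)
  obtain ⟨d, hd, hd'⟩ := reg_bound (isRegular_succ hK) hcard b hb1
  have hd1 : d + 1 < (Order.succ K).ord := by
    have h1 := (isSuccLimit_ord (hK.trans (Order.le_succ K))).succ_lt hd
    rwa [Order.succ_eq_add_one] at h1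
  have hgv : ∀ᶠ n in atTop, g d n < v n :=
    (hv (g d)).2 ⟨d + 1, hd1, hinc d (d + 1) (lt_add_one d) hd1⟩
  have hx : ∀ n, ∃ t : T, ¬ Big T (v n) → 0 < v n → g d n < v n → g d n ≤ C n t := by
    intro n
    by_cases hk : ¬ Big T (v n) ∧ 0 < v n ∧ g d n < v n
    · obtain ⟨t, ht⟩ := (hC n hk.1 hk.2.1).2 _ hk.2.2
      exact ⟨t, fun _ _ _ => ht⟩
    · exact ⟨t₀, fun h1 h2 h3 => absurd ⟨h1, h2, h3⟩ hk⟩
  choose x hx using hx
  obtain ⟨n, hn, h1, h2, h3, h4⟩ := (hfreq.and_eventually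
    (hpos.and (hgv.and ((hb2 x).and (hinc (b x) d (hd' x) hd))))).exists
  rw [if_pos hn] at h3
  exact absurd (h3.trans h4) (not_lt.2 (hx n hn h1 h2))

end Pool.Agent.Lib.MP_473540_gtM
end

section

/-!
From an increasing cofinal sequence to a scale.
-/

namespace Pool.Agent.Lib.MP_473540_gtM

open Cardinal Ordinal Filter Set

/-- **From a weakly increasing cofinal sequence to a scale.** -/
theorem exists_scale_of {Λ : Type} (hΛ : ℵ₀ ≤ #Λ) {κ : ℕ → Cardinal.{0}} (hreg : ∀ n, (κ n).IsRegular)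
    (hmono : StrictMono κ) (hunc : #Λ < κ 0) {lam : Cardinal.{0}} (hlam : lam.IsRegular)
    (hlt : ∀ n, κ n < lam) {f : Ordinal.{0} → ℕ → Ordinal.{0}}
    (hf : ∀ α n, f α n < (κ n).ord)
    (hf2 : ∀ α β, α ≤ β → β < lam.ord → ∀ᶠ k in atTop, f α k ≤ f β k)
    (hf3 : ∀ h : ℕ → Ordinal.{0}, (∀ k, h k < (κ k).ord) →
      ∃ α < lam.ord, ∀ᶠ k in atTop, h k < f α k) :
    ∃ f' : Ordinal.{0} → ℕ → Ordinal.{0}, Scale Λ κ lam f' := by
  -- `exists_rec` for `D = ℕ → Ordinal.{0}`, `lam.ord`, `R u v := ∀ᶠ k, u k < v k`,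
  -- `Q α v := (∀ n, v n < (κ n).ord) ∧ ∀ᶠ k, f α k ≤ v k`. Hypothesis `hR`: given `α < lam.ord` and
  -- `u` with `Q β (u β)` for `β < α`, `hf3` gives `b β < lam.ord` with `u β k < f (b β) k` for
  -- almost all `k`; `reg_bound hlam` for the family indexed by `α.ToType` (`#α.ToType < lam`:
  -- `mk_toType`, `lt_ord`; see `exists_enum` in Lib/MP_473540_gt/Club.lean for the same argument)
  -- gives `b < lam.ord` above all `b β`; take `v = f (max b α)`.
  classical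
  obtain ⟨u, hu⟩ := exists_rec (D := ℕ → Ordinal.{0}) (fun _ => 0) lam.ord
    (fun u v => ∀ᶠ k in atTop, u k < v k)
    (fun α v => (∀ n, v n < (κ n).ord) ∧ ∀ᶠ k in atTop, f α k ≤ v k) (by
      intro α hα u hu
      have hb : ∀ i : α.ToType, ∃ b < lam.ord, ∀ᶠ k in atTop,
          u ((Ordinal.ToType.mk.symm i : Iio α) : Ordinal.{0}) k < f b k := fun i =>
        hf3 _ (hu _ (Ordinal.ToType.mk.symm i).2).1
      choose b hb1 hb2 using hb
      have h1 : #α.ToType < lam := by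
        rw [mk_toType]
        exact lt_ord.1 hα
      obtain ⟨c, hc, hc'⟩ := reg_bound hlam h1 b hb1
      have hm : max c α < lam.ord := max_lt hc hα
      refine ⟨f (max c α), ⟨hf _, hf2 α _ (le_max_right _ _) hm⟩, fun β hβ => ?_⟩
      have h2 := hb2 (Ordinal.ToType.mk ⟨β, hβ⟩)
      rw [OrderIso.symm_apply_apply] at h2
      have h3 := hf2 (b (Ordinal.ToType.mk ⟨β, hβ⟩)) (max c α)
        ((hc' _).le.trans (le_max_left _ _)) hm
      filter_upwards [h2, h3] with k hk hk'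
      exact hk.trans_le hk')
  refine ⟨u, ⟨hΛ, hreg, hmono, hunc, hlam, hlt, fun α hα => (hu α hα).1.1,
    fun α β hαβ hβ => (hu β hβ).2 α hαβ, fun g hg => ?_⟩⟩
  obtain ⟨α, hα, h1⟩ := hf3 g hg
  refine ⟨α, hα, ?_⟩
  filter_upwards [h1, (hu α hα).1.2] with k hk hk'
  exact hk.trans_le hk'

end Pool.Agent.Lib.MP_473540_gtM
end

section

/-!
The topology.
-/

namespace Pool.Agent.Lib.MP_473540_gtM

open Cardinal Ordinal Filter Set

/-- the space of all points -/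
def Pt (Λ : Type) (κ : ℕ → Cardinal.{0}) : Type 1 := {y : ℕ → Ordinal.{0} // IsPt Λ κ y}

/-- the basic sets -/
def bx (Λ : Type) (κ : ℕ → Cardinal.{0}) (y : ℕ → Ordinal.{0}) (n : ℕ) (h : ℕ → Ordinal.{0}) :
    Set (Pt Λ κ) :=
  {x | (∀ m < n, x.1 m ≤ y m) ∧ ∀ m, h m < x.1 m}

/-- A set is open if with `y` it contains some `bx Λ κ y n h` with `h < y`. -/
instance (Λ : Type) (κ : ℕ → Cardinal.{0}) : TopologicalSpace (Pt Λ κ) where
  IsOpen U := ∀ y ∈ U, ∃ (n : ℕ) (h : ℕ → Ordinal.{0}), (∀ m, h m < y.1 m) ∧ bx Λ κ y.1 n h ⊆ U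
  isOpen_univ := fun y _ => ⟨0, fun _ => 0, fun m => (y.2 m).2.1, fun _ _ => trivial⟩
  isOpen_inter := by
    rintro U V hU hV y ⟨hyU, hyV⟩
    obtain ⟨n, h, hh, hs⟩ := hU y hyU
    obtain ⟨n', h', hh', hs'⟩ := hV y hyV
    refine ⟨max n n', fun m => max (h m) (h' m), fun m => max_lt (hh m) (hh' m), fun x hx => ?_⟩
    exact ⟨hs ⟨fun m hm => hx.1 m (lt_max_of_lt_left hm),
      fun m => (le_max_left _ _).trans_lt (hx.2 m)⟩,
      hs' ⟨fun m hm => hx.1 m (lt_max_of_lt_right hm),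
      fun m => (le_max_right _ _).trans_lt (hx.2 m)⟩⟩
  isOpen_sUnion := by
    rintro s hs y ⟨U, hU, hy⟩
    obtain ⟨n, h, hh, h1⟩ := hs U hU y hy
    exact ⟨n, h, hh, h1.trans (subset_sUnion_of_mem hU)⟩

variable {Λ : Type} {κ : ℕ → Cardinal.{0}}

theorem isOpen_def {U : Set (Pt Λ κ)} : IsOpen U ↔ ∀ y ∈ U, ∃ (n : ℕ) (h : ℕ → Ordinal.{0}),
    (∀ m, h m < y.1 m) ∧ bx Λ κ y.1 n h ⊆ U := Iff.rfl

theorem isOpen_bx (y : ℕ → Ordinal.{0}) (n : ℕ) (h : ℕ → Ordinal.{0}) : IsOpen (bx Λ κ y n h) := by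
  intro x hx
  exact ⟨n, h, hx.2, fun z hz => ⟨fun m hm => (hz.1 m hm).trans (hx.1 m hm), hz.2⟩⟩

private theorem upd_lt {x : ℕ → Ordinal.{0}} {m : ℕ} {a : Ordinal.{0}} (hx : ∀ k, 0 < x k)
    (ha : a < x m) (k : ℕ) : (if k = m then a else 0) < x k := by
  split_ifs with hk
  · rw [hk]
    exact ha
  · exact hx k

private theorem upd_self {x : ℕ → Ordinal.{0}} {m : ℕ} {a : Ordinal.{0}}
    (h : (if m = m then a else 0) < x m) : a < x m := by
  rwa [if_pos rfl] at h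

theorem isClosed_bx (y : ℕ → Ordinal.{0}) (n : ℕ) (h : ℕ → Ordinal.{0}) :
    IsClosed (bx Λ κ y n h) := by
  rw [← isOpen_compl_iff]
  intro x hx
  by_cases h1 : ∀ m < n, x.1 m ≤ y m
  · have h2 : ∃ m, x.1 m ≤ h m := by
      by_contra hcon
      push Not at hcon
      exact hx ⟨h1, hcon⟩
    obtain ⟨m, hm⟩ := h2
    refine ⟨m + 1, fun _ => 0, fun k => (x.2 k).2.1, fun z hz hz' => ?_⟩
    exact absurd (hz'.2 m) (not_lt.2 ((hz.1 m (Nat.lt_succ_self m)).trans hm))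
  · push Not at h1
    obtain ⟨m, hm, hm'⟩ := h1
    refine ⟨0, fun k => if k = m then y m else 0, upd_lt (fun k => (x.2 k).2.1) hm',
      fun z hz hz' => ?_⟩
    exact absurd (hz'.1 m hm) (not_le.2 (upd_self (hz.2 m)))

theorem mem_closure_def {s : Set (Pt Λ κ)} {y : Pt Λ κ} : y ∈ closure s ↔
    ∀ (n : ℕ) (h : ℕ → Ordinal.{0}), (∀ m, h m < y.1 m) → ∃ x ∈ s, x ∈ bx Λ κ y.1 n h := by
  rw [mem_closure_iff]
  constructor
  · intro hy n h hh
    obtain ⟨x, hx, hxs⟩ := hy (bx Λ κ y.1 n h) (isOpen_bx _ _ _) ⟨fun _ _ => le_rfl, hh⟩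
    exact ⟨x, hxs, hx⟩
  · intro hy o ho hyo
    obtain ⟨n, h, hh, hs⟩ := isOpen_def.1 ho y hyo
    obtain ⟨x, hxs, hx⟩ := hy n h hh
    exact ⟨x, hs hx, hxs⟩

private theorem sep {y y' : Pt Λ κ} {m : ℕ} (hm : y.1 m < y'.1 m) :
    ∃ u v : Set (Pt Λ κ), IsOpen u ∧ IsOpen v ∧ y ∈ u ∧ y' ∈ v ∧ Disjoint u v := by
  refine ⟨bx Λ κ y.1 (m + 1) (fun _ => 0), bx Λ κ y'.1 0 (fun k => if k = m then y.1 m else 0),
    isOpen_bx _ _ _, isOpen_bx _ _ _, ⟨fun _ _ => le_rfl, fun k => (y.2 k).2.1⟩,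
    ⟨fun _ _ => le_rfl, upd_lt (fun k => (y'.2 k).2.1) hm⟩, ?_⟩
  rw [Set.disjoint_left]
  intro z hz hz'
  exact absurd (hz.1 m (Nat.lt_succ_self m)) (not_le.2 (upd_self (hz'.2 m)))

instance : T2Space (Pt Λ κ) := by
  refine ⟨fun y y' hne => ?_⟩
  have hex : ∃ m, y.1 m ≠ y'.1 m := by
    by_contra hcon
    push Not at hcon
    exact hne (Subtype.ext (funext hcon))
  obtain ⟨m, hm⟩ := hex
  rcases lt_or_gt_of_ne hm with h | h
  · exact sep h
  · obtain ⟨u, v, hu, hv, h1, h2, h3⟩ := sep h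
    exact ⟨v, u, hv, hu, h2, h1, h3.symm⟩

instance : RegularSpace (Pt Λ κ) := by
  refine RegularSpace.of_exists_mem_nhds_isClosed_subset fun y s hs => ?_
  obtain ⟨t, hts, ht, hyt⟩ := mem_nhds_iff.1 hs
  obtain ⟨n, h, hh, hb⟩ := isOpen_def.1 ht y hyt
  exact ⟨bx Λ κ y.1 n h, (isOpen_bx _ _ _).mem_nhds ⟨fun _ _ => le_rfl, hh⟩, isClosed_bx _ _ _,
    hb.trans hts⟩

/-- the space of the points of rank below `lam` -/
def YY (Λ : Type) (κ : ℕ → Cardinal.{0}) (lam : Cardinal.{0}) (f : Ordinal.{0} → ℕ → Ordinal.{0}) :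
    Set (Pt Λ κ) := {y | ∃ δ < lam.ord, Big Λ δ ∧ Eub f δ y.1}

/-- the space of the points of rank at most `lam` -/
def YP (Λ : Type) (κ : ℕ → Cardinal.{0}) (lam : Cardinal.{0}) (f : Ordinal.{0} → ℕ → Ordinal.{0}) :
    Set (Pt Λ κ) := {y | ∃ δ ≤ lam.ord, Big Λ δ ∧ Eub f δ y.1}

/-- the points of rank `lam` are equal to `κ` for almost all `m` -/
theorem eq_of_mem_YP {lam : Cardinal.{0}} {f : Ordinal.{0} → ℕ → Ordinal.{0}} (S : Scale Λ κ lam f)
    {y : Pt Λ κ} (hy : y ∈ YP Λ κ lam f) (hy' : y ∉ YY Λ κ lam f) :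
    ∀ᶠ m in atTop, y.1 m = (κ m).ord := by
  obtain ⟨δ, hδ, hB, hE⟩ := hy
  have h1 : δ = lam.ord := by
    by_contra hcon
    exact hy' ⟨δ, lt_of_le_of_ne hδ hcon, hB, hE⟩
  subst h1
  have h2 := Eub.le S le_rfl hB le_rfl
    (Eventually.of_forall fun m => (S.big_ord m).1) S.eub_top hE
  filter_upwards [h2] with m hm
  exact le_antisymm (y.2 m).1 hm

/-- the points of rank below `lam` are below `κ` for almost all `m` -/
theorem lt_of_mem_YY {lam : Cardinal.{0}} {f : Ordinal.{0} → ℕ → Ordinal.{0}} (S : Scale Λ κ lam f)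
    {y : Pt Λ κ} (hy : y ∈ YY Λ κ lam f) : ∀ᶠ m in atTop, y.1 m < (κ m).ord := by
  obtain ⟨δ, hδ, hB, hE⟩ := hy
  have h1 : ∀ᶠ m in atTop, y.1 m ≤ f δ m := by
    refine le_of_imp (Eventually.of_forall fun m => (y.2 m).2.1) fun h hh => ?_
    obtain ⟨β, hβ, hβ'⟩ := (hE h).1 hh
    filter_upwards [hβ', S.inc β δ hβ hδ] with m h2 h3
    exact h2.trans h3
  filter_upwards [h1] with m hm
  exact hm.trans_lt (S.mem δ hδ m)

end Pool.Agent.Lib.MP_473540_gtM
end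

section

/-!
A positive point of the least possible rank.
-/

namespace Pool.Agent.Lib.MP_473540_gtM

open Cardinal Ordinal Filter Set

variable {Λ : Type} {κ : ℕ → Cardinal.{0}} {lam : Cardinal.{0}} {f : Ordinal.{0} → ℕ → Ordinal.{0}}

/-- **A positive point of the least rank.** -/
theorem exists_least (S : EubScale Λ κ lam f) {I : Set (ℕ → Ordinal.{0}) → Prop} (hI : SIdeal Λ I)
    {δ₀ : Ordinal.{0}} (hδ₀ : δ₀ ≤ lam.ord) (hpos : ¬ I (rk Λ κ f δ₀)) :
    ∃ δ ≤ δ₀, Big Λ δ ∧ ∃ e : ℕ → Ordinal.{0}, IsPt Λ κ e ∧ Eub f δ e ∧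
      ∀ h : ℕ → Ordinal.{0}, (∀ m, h m < e m) →
        ¬ I {x ∈ rk Λ κ f δ | ∀ m, h m < x m ∧ x m ≤ e m} := by
  classical
  -- the least `δ` with a positive set of points of rank at most `δ`
  obtain ⟨δ, hδpos, hδmin⟩ : ∃ δ : Ordinal.{0}, ¬ I (rk Λ κ f δ) ∧ ∀ δ' < δ, I (rk Λ κ f δ') := by
    have hne : {o : Ordinal.{0} | ¬ I (rk Λ κ f o)}.Nonempty := ⟨δ₀, hpos⟩
    refine ⟨sInf {o : Ordinal.{0} | ¬ I (rk Λ κ f o)}, csInf_mem hne, ?_⟩
    intro δ' hδ'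
    by_contra hc
    exact absurd (csInf_le' hc) (not_le.2 hδ')
  have hδδ₀ : δ ≤ δ₀ := by
    by_contra hc
    exact hpos (hδmin δ₀ (not_le.1 hc))
  have hδlam : δ ≤ lam.ord := hδδ₀.trans hδ₀
  have hB : Big Λ δ := by
    by_contra hB
    apply hδpos
    rcases eq_or_ne δ 0 with h0 | h0
    · have hemp : rk Λ κ f δ = ∅ := by
        apply Set.eq_empty_of_forall_notMem
        rintro x ⟨_, δ', hδ', hb, _⟩
        have h1 := lt_of_lt_of_le hb.1 hδ'
        rw [h0] at h1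
        exact absurd h1 (lt_irrefl _)
      rw [hemp]
      exact hI.empty
    · obtain ⟨a, ha, hcof⟩ := exists_of_not_big hB (pos_iff_ne_zero.2 h0)
      refine hI.mono _ _ ?_ (hI.union (fun k => rk Λ κ f (a k)) (fun k => hδmin _ (ha k)))
      rintro x ⟨hx, δ', hδ', hb, he⟩
      have hne : δ' ≠ δ := fun h => hB (h ▸ hb)
      obtain ⟨k, hk⟩ := hcof δ' (lt_of_le_of_ne hδ' hne)
      exact Set.mem_iUnion.2 ⟨k, hx, δ', hk, hb, he⟩
  obtain ⟨w, hw, hwe⟩ := S.exists_eub hδlam hB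
  have hmemU : ∀ x ∈ rk Λ κ f δ, ∃ n, ∀ m ≥ n, x m ≤ w m := by
    rintro x ⟨hx, δ', hδ', hb, he⟩
    have h0 : ∀ᶠ m in atTop, 0 < x m := Filter.Eventually.of_forall (fun m => (hx m).2.1)
    exact Filter.eventually_atTop.1 (Eub.le S.toScale hδlam hB hδ' h0 he hwe)
  have hU : (⋃ n, {x ∈ rk Λ κ f δ | ∀ m ≥ n, x m ≤ w m}) = rk Λ κ f δ := by
    apply Set.Subset.antisymm
    · intro x hx
      obtain ⟨n, hn⟩ := Set.mem_iUnion.1 hx
      exact hn.1
    · intro x hx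
      obtain ⟨n, hn⟩ := hmemU x hx
      exact Set.mem_iUnion.2 ⟨n, hx, hn⟩
  obtain ⟨n₁, -, p, hp, hpp⟩ := exists_pos S.inf (κ := κ) hI
    (fun n => {x ∈ rk Λ κ f δ | ∀ m ≥ n, x m ≤ w m})
    (fun a b hab x hx => ⟨hx.1, fun m hm => hx.2 m (le_trans hab hm)⟩)
    (by rw [hU]; exact hδpos) (fun n x hx => hx.1.1) w 0 (fun m _ => (hw m).2) (by
      intro h hh
      obtain ⟨β, hβ, hβ'⟩ := (hwe h).1 (Filter.Eventually.of_forall (fun m => hh m (Nat.zero_le m)))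
      refine hI.mono _ _ ?_ (hδmin β hβ)
      rintro x ⟨hx, hx'⟩
      rw [hU] at hx
      obtain ⟨hx1, δ', hδ', hb, he⟩ := hx
      refine ⟨hx1, δ', ?_, hb, he⟩
      by_contra hc
      apply hx'
      have h2 := Eub.lt S.toScale (hδ'.trans hδlam) hb he (not_le.1 hc)
      filter_upwards [h2, hβ'] with m h3 h4
      exact lt_trans h4 h3)
  refine ⟨δ, hδδ₀, hB, fun m => if m < n₁ then p m else w m, ?_, ?_, ?_⟩
  · intro m
    by_cases hm : m < n₁
    · simp only [hm, if_true]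
      exact hp m hm
    · simp only [hm, if_false]
      exact hw m
  · refine Eub.congr hwe ?_
    filter_upwards [Filter.eventually_ge_atTop n₁] with m hm
    simp only [not_lt.2 hm, if_false]
  · intro h hh hcon
    refine hpp h ?_ ?_ (hI.mono _ _ ?_ hcon)
    · intro m hm
      have := hh m
      simpa only [hm, if_true] using this
    · intro m hm
      have := hh m
      simpa only [not_lt.2 hm, if_false] using this
    · rintro x ⟨hx, hx1, hx2⟩
      refine ⟨hx.1, fun m => ?_⟩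
      by_cases hm : m < n₁
      · simp only [hm, if_true]
        exact hx1 m hm
      · simp only [hm, if_false]
        exact ⟨hx2 m (not_lt.1 hm), hx.2 m (not_lt.1 hm)⟩

end Pool.Agent.Lib.MP_473540_gtM
end

section

/-!
Points of cofinality `ω₁` of the scale which are closed under given functions.
-/

namespace Pool.Agent.Lib.MP_473540_gtM

open Cardinal Ordinal Filter Set

/-- the limit of a chain -/
theorem limit_of_chain {Λ : Type} {κ : ℕ → Cardinal.{0}} {lam : Cardinal.{0}}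
    {f : Ordinal.{0} → ℕ → Ordinal.{0}} (S : Scale Λ κ lam f) {W : Type} [LinearOrder W] [Nonempty W]
    (hW : #W ≤ Order.succ #Λ) (hWb : ∀ (ι : Type), #ι ≤ #Λ → ∀ a : ι → W, ∃ j, ∀ k, a k < j) (G : W → ℕ → Ordinal.{0})
    (hGκ : ∀ i m, G i m < (κ m).ord) (hG : ∀ i j, i < j → ∀ m, G i m < G j m)
    (β : W → Ordinal.{0}) (hβ : ∀ i, β i < lam.ord) (hβG : ∀ i, ∀ᶠ m in atTop, G i m < f (β i) m)
    (hβG' : ∀ i j, i < j → ∀ m, f (β i) m < G j m) :
    ∃ δ < lam.ord, Big Λ δ ∧ ∃ χ : ℕ → Ordinal.{0}, IsPt Λ κ χ ∧ Eub f δ χ ∧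
      (∀ i m, G i m < χ m) ∧
      ∀ h : ℕ → Ordinal.{0}, (∀ m, h m < χ m) → ∃ i, ∀ m, h m < G i m := by
  have hN : #ℕ ≤ #Λ := by
    rw [mk_nat]
    exact S.inf
  have hmax : ∀ i : W, ∃ j, i < j := fun i => by
    obtain ⟨j, hj⟩ := hWb ℕ hN fun _ => i
    exact ⟨j, hj 0⟩
  let χ : ℕ → Ordinal.{0} := fun m => ⨆ i, G i m
  have hle : ∀ i m, G i m ≤ χ m := fun i m => Ordinal.le_iSup (fun i => G i m) i
  have hlt : ∀ i m, G i m < χ m := fun i m => by
    obtain ⟨j, hj⟩ := hmax i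
    exact (hG i j hj m).trans_le (hle j m)
  have hex : ∀ m a, a < χ m → ∃ i, a < G i m := fun m a ha => Ordinal.lt_iSup_iff.1 ha
  have hall : ∀ h : ℕ → Ordinal.{0}, (∀ m, h m < χ m) → ∃ i, ∀ m, h m < G i m := by
    intro h hh
    choose i hi using fun m => hex m (h m) (hh m)
    obtain ⟨j, hj⟩ := hWb ℕ hN i
    exact ⟨j, fun m => (hi m).trans (hG _ _ (hj m) m)⟩
  have i₀ : W := Classical.arbitrary W
  have hpt : IsPt Λ κ χ := by
    intro m
    refine ⟨Ordinal.iSup_le fun i => (hGκ i m).le, bot_lt_of_lt (hlt i₀ m), fun a ha => ?_⟩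
    choose i hi using fun k => hex m (a k) (ha k)
    obtain ⟨j, hj⟩ := hWb Λ le_rfl i
    exact ⟨G j m, hlt j m, fun k => (hi k).trans (hG _ _ (hj k) m)⟩
  have hβm : ∀ i j, i < j → β i < β j := by
    intro i j hij
    by_contra hcon
    rw [not_lt] at hcon
    have h1 : ∀ᶠ m in atTop, f (β j) m ≤ f (β i) m := by
      rcases hcon.eq_or_lt with h | h
      · rw [h]
        exact Eventually.of_forall fun m => le_rfl
      · exact (S.inc _ _ h (hβ i)).mono fun m hm => hm.le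
    obtain ⟨m, hm1, hm2⟩ := (h1.and (hβG j)).exists
    exact absurd (hβG' i j hij m) (not_lt.2 (hm2.le.trans hm1))
  let δ : Ordinal.{0} := ⨆ i, β i
  have hδle : ∀ i, β i ≤ δ := fun i => Ordinal.le_iSup β i
  have hδlt : ∀ i, β i < δ := fun i => by
    obtain ⟨j, hj⟩ := hmax i
    exact (hβm i j hj).trans_le (hδle j)
  have hδex : ∀ a, a < δ → ∃ i, a < β i := fun a ha => Ordinal.lt_iSup_iff.1 ha
  have hδlam : δ < lam.ord := by
    have hc : #W < lam := by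
      refine hW.trans_lt (lt_of_le_of_lt ?_ (S.lt_lam 0))
      exact Order.succ_le_of_lt S.unc
    obtain ⟨b, hb, hb'⟩ := reg_bound S.lreg hc β hβ
    exact (Ordinal.iSup_le fun i => (hb' i).le).trans_lt hb
  have hδB : Big Λ δ := by
    refine ⟨bot_lt_of_lt (hδlt i₀), fun a ha => ?_⟩
    choose i hi using fun k => hδex (a k) (ha k)
    obtain ⟨j, hj⟩ := hWb Λ le_rfl i
    exact ⟨β j, hδlt j, fun k => (hi k).trans (hβm _ _ (hj k))⟩
  refine ⟨δ, hδlam, hδB, χ, hpt, fun h => ⟨fun hh => ?_, fun hh => ?_⟩, hlt, hall⟩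
  · classical
    obtain ⟨i, hi⟩ := hall (fun m => if h m < χ m then h m else 0) (fun m => by
      by_cases hm : h m < χ m
      · simp only [if_pos hm]
        exact hm
      · simp only [if_neg hm]
        exact (hpt m).2.1)
    refine ⟨β i, hδlt i, ?_⟩
    filter_upwards [hh, hβG i] with m hm1 hm2
    have h3 := hi m
    simp only [if_pos hm1] at h3
    exact h3.trans hm2
  · obtain ⟨β', hβ', hh'⟩ := hh
    obtain ⟨i, hi⟩ := hδex β' hβ'
    obtain ⟨j, hj⟩ := hmax i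
    filter_upwards [hh', S.inc β' (β i) hi (hβ i)] with m hm1 hm2
    exact (hm1.trans hm2).trans ((hβG' i j hj m).trans (hlt j m))

/-- **Closed points of cofinality `ω₁`.** -/
theorem exists_limit {Λ : Type} {κ : ℕ → Cardinal.{0}} {lam : Cardinal.{0}}
    {f : Ordinal.{0} → ℕ → Ordinal.{0}} (S : Scale Λ κ lam f)
    (Q : ℕ → (ℕ → Ordinal.{0}) → ℕ → Ordinal.{0})
    (hQ : ∀ n (u : ℕ → Ordinal.{0}), (∀ m, u m < (κ m).ord) → ∀ m, Q n u m < (κ m).ord) :
    ∃ δ < lam.ord, Big Λ δ ∧ ∃ χ : ℕ → Ordinal.{0}, IsPt Λ κ χ ∧ Eub f δ χ ∧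
      ∀ h : ℕ → Ordinal.{0}, (∀ m, h m < χ m) →
        ∃ u : ℕ → Ordinal.{0}, (∀ m, u m < (κ m).ord) ∧ (∀ m, h m < u m) ∧ (∀ m, u m < χ m) ∧
          ∀ n m, Q n u m < χ m := by
  choose! b hb hb' using S.cof
  let R : {u : ℕ → Ordinal.{0} // ∀ m, u m < (κ m).ord} →
      {u : ℕ → Ordinal.{0} // ∀ m, u m < (κ m).ord} → Prop :=
    fun u v => ∀ m, u.1 m < v.1 m ∧ (∀ n, Q n u.1 m < v.1 m) ∧ f (b u.1) m < v.1 m
  obtain ⟨W, iW, G, hne, hW, hWb, hGR⟩ := exists_chain S.inf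
    (⟨fun _ => 0, fun m => (S.big_ord m).1⟩ : {u : ℕ → Ordinal.{0} // ∀ m, u m < (κ m).ord}) R
    (fun u => by
      have h1 : ∀ m, ∃ c < (κ m).ord, ∀ k, (u k).1 m < c ∧ (∀ n, Q n (u k).1 m < c) ∧
          f (b (u k).1) m < c := by
        intro m
        obtain ⟨c1, hc1, h1⟩ := (S.big_ord m).2 (fun k : Λ => (u k).1 m)
          (fun k => (u k).2 m)
        obtain ⟨c2, hc2, h2⟩ := (S.big_ord m).small (ι := Λ × ℕ) (by
            rw [mk_prod, Cardinal.lift_id, Cardinal.lift_id, mk_nat]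
            exact (mul_eq_left S.inf S.inf aleph0_ne_zero).le)
          (fun k : Λ × ℕ => Q k.2 (u k.1).1 m) (fun k => hQ k.2 _ (u k.1).2 m)
        obtain ⟨c3, hc3, h3⟩ := (S.big_ord m).2 (fun k : Λ => f (b (u k).1) m)
          (fun k => S.mem _ (hb _ (u k).2) m)
        refine ⟨max c1 (max c2 c3), max_lt hc1 (max_lt hc2 hc3), fun k => ⟨?_, fun n => ?_, ?_⟩⟩
        · exact (h1 k).trans_le (le_max_left _ _)
        · exact (h2 (k, n)).trans_le ((le_max_left _ _).trans (le_max_right _ _))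
        · exact (h3 k).trans_le ((le_max_right _ _).trans (le_max_right _ _))
      choose c hc hc' using h1
      exact ⟨⟨c, hc⟩, fun k m => hc' m k⟩)
  obtain ⟨δ, hδ, hδB, χ, hχ, hE, hlt, hall⟩ := limit_of_chain S hW hWb (fun i => (G i).1)
    (fun i m => (G i).2 m) (fun i j hij m => (hGR i j hij m).1) (fun i => b (G i).1)
    (fun i => hb _ (G i).2) (fun i => hb' _ (G i).2) (fun i j hij m => (hGR i j hij m).2.2)
  refine ⟨δ, hδ, hδB, χ, hχ, hE, fun h hh => ?_⟩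
  obtain ⟨i, hi⟩ := hall h hh
  obtain ⟨j, hj⟩ := hWb Λ le_rfl fun _ => i
  obtain ⟨l⟩ : Nonempty Λ := mk_ne_zero_iff.1 (aleph0_pos.trans_le S.inf).ne'
  exact ⟨(G i).1, (G i).2, hi, hlt i, fun n m => ((hGR i j (hj l) m).2.1 n).trans (hlt j m)⟩

end Pool.Agent.Lib.MP_473540_gtM
end

section

/-!
The reflection lemma.
-/

namespace Pool.Agent.Lib.MP_473540_gtM

open Cardinal Ordinal Filter Set

variable {Λ : Type} {κ : ℕ → Cardinal.{0}} {lam : Cardinal.{0}} {f : Ordinal.{0} → ℕ → Ordinal.{0}}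

/-- the bound `q` can be chosen uniformly in the first `n₁` coordinates of `t` -/
theorem uniform_q (S : Scale Λ κ lam f) {n₁ : ℕ} (hn₁ : 1 ≤ n₁) {p : ℕ → Ordinal.{0}}
    (hp : ∀ m < n₁, p m ≤ (κ m).ord) {𝓗 : Set (Set (ℕ → Ordinal.{0}))} (hS : Star κ n₁ p 𝓗)
    (n : ℕ) (u : ℕ → Ordinal.{0}) (hu : ∀ m, u m < (κ m).ord) :
    ∃ q : ℕ → Ordinal.{0}, (∀ m, q m < (κ m).ord) ∧
      ∀ t : ℕ → Ordinal.{0}, (∀ m < n₁, t m < p m) → (∀ m ≥ n₁, t m = u m) →
        ∀ H ∈ 𝓗, ∃ x ∈ H, (∀ m, t m < x m) ∧ (∀ m < n₁, x m ≤ p m) ∧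
          ∀ m, n₁ ≤ m → m < n → x m ≤ q m := by
  classical
  have hκ0 : ∀ m, (0 : Ordinal.{0}) < (κ m).ord := fun m => lt_of_le_of_lt zero_le (hu m)
  set T : (Fin n₁ → Ordinal.{0}) → ℕ → Ordinal.{0} := fun s m =>
    if h : m < n₁ then s ⟨m, h⟩ else u m with hT
  have hex : ∀ s : Fin n₁ → Ordinal.{0}, ∃ q : ℕ → Ordinal.{0}, (∀ m, q m < (κ m).ord) ∧
      ((∀ i : Fin n₁, s i < p i) → ∀ H ∈ 𝓗, ∃ x ∈ H, (∀ m, T s m < x m) ∧
        (∀ m < n₁, x m ≤ p m) ∧ ∀ m, n₁ ≤ m → m < n → x m ≤ q m) := by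
    intro s
    by_cases hs : ∀ i : Fin n₁, s i < p i
    · obtain ⟨q, hq1, hq2⟩ := hS n (T s)
        (fun m hm => by simp only [hT, dif_pos hm]; exact hs ⟨m, hm⟩)
        (fun m hm => by simp only [hT, dif_neg (not_lt.2 hm)]; exact hu m)
      exact ⟨q, hq1, fun _ => hq2⟩
    · exact ⟨fun _ => 0, hκ0, fun h => absurd h hs⟩
  choose qs hqs1 hqs2 using hex
  have hb : ∀ m, n₁ ≤ m → ∃ b < (κ m).ord, ∀ t : Fin n₁ → Ordinal.{0},
      (∀ i, t i < (κ (n₁ - 1)).ord) → qs t m < b := by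
    intro m hm
    refine reg_bound_fun (S.reg m) (S.inf.trans (S.unc.le.trans (S.mono.monotone (Nat.zero_le _))))
      (S.mono (by omega)) n₁ (fun s => qs s m) fun s _ => hqs1 s m
  choose! b hb1 hb2 using hb
  refine ⟨fun m => if m < n₁ then 0 else b m, fun m => ?_, fun t ht1 ht2 H hH => ?_⟩
  · by_cases hm : m < n₁
    · simp only [if_pos hm]; exact hκ0 m
    · simp only [if_neg hm]; exact hb1 m (not_lt.1 hm)
  · have hTt : T (fun i => t i) = t := by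
      funext m
      by_cases hm : m < n₁
      · simp only [hT, dif_pos hm]
      · simp only [hT, dif_neg hm]; exact (ht2 m (not_lt.1 hm)).symm
    obtain ⟨x, hx, hx1, hx2, hx3⟩ := hqs2 (fun i => t i) (fun i => ht1 i i.2) H hH
    rw [hTt] at hx1
    refine ⟨x, hx, hx1, hx2, fun m hm1 hm2 => ?_⟩
    simp only [if_neg (not_lt.2 hm1)]
    refine (hx3 m hm1 hm2).trans (hb2 m hm1 _ fun i => ?_).le
    refine (ht1 i i.2).trans_le ((hp i i.2).trans ?_)
    exact Cardinal.ord_le_ord.2 (S.mono.monotone (by have := i.2; omega))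

/-- **The reflection lemma**: there is a point of rank below `lam` in the closure of all sets of the
family. -/
theorem reflect (S : Scale Λ κ lam f) {n₁ : ℕ} (hn₁ : 1 ≤ n₁) {p : ℕ → Ordinal.{0}}
    (hp : ∀ m < n₁, p m ≤ (κ m).ord ∧ Big Λ (p m)) {𝓗 : Set (Set (ℕ → Ordinal.{0}))}
    (hS : Star κ n₁ p 𝓗) :
    ∃ δ < lam.ord, Big Λ δ ∧ ∃ e : ℕ → Ordinal.{0}, IsPt Λ κ e ∧ Eub f δ e ∧
      ∀ H ∈ 𝓗, ∀ (n : ℕ) (h : ℕ → Ordinal.{0}), (∀ m, h m < e m) →
        ∃ x ∈ H, (∀ m < n, x m ≤ e m) ∧ ∀ m, h m < x m := by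
  classical
  have hex : ∀ (n : ℕ) (u : ℕ → Ordinal.{0}), ∃ q : ℕ → Ordinal.{0},
      (∀ m, u m < (κ m).ord) → (∀ m, q m < (κ m).ord) ∧
      ∀ t : ℕ → Ordinal.{0}, (∀ m < n₁, t m < p m) → (∀ m ≥ n₁, t m = u m) →
        ∀ H ∈ 𝓗, ∃ x ∈ H, (∀ m, t m < x m) ∧ (∀ m < n₁, x m ≤ p m) ∧
          ∀ m, n₁ ≤ m → m < n → x m ≤ q m := by
    intro n u
    by_cases hu : ∀ m, u m < (κ m).ord
    · obtain ⟨q, hq1, hq2⟩ := uniform_q S hn₁ (fun m hm => (hp m hm).1) hS n u hu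
      exact ⟨q, fun _ => ⟨hq1, hq2⟩⟩
    · exact ⟨fun _ => 0, fun h => absurd h hu⟩
  choose Q hQ using hex
  obtain ⟨δ, hδ, hδB, χ, hχ, hχE, hlim⟩ := exists_limit S Q fun n u hu => (hQ n u hu).1
  refine ⟨δ, hδ, hδB, fun m => if m < n₁ then p m else χ m, fun m => ?_, ?_,
    fun H hH n h hh => ?_⟩
  · by_cases hm : m < n₁
    · simp only [if_pos hm]; exact hp m hm
    · simp only [if_neg hm]; exact hχ m
  · refine Eub.congr hχE ?_
    filter_upwards [eventually_ge_atTop n₁] with m hm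
    rw [if_neg (not_lt.2 hm)]
  · obtain ⟨u, hu1, hu2, hu3, hu4⟩ := hlim (fun m => if m < n₁ then 0 else h m) fun m => by
      by_cases hm : m < n₁
      · simp only [if_pos hm]; exact (hχ m).2.1
      · have := hh m
        simp only [if_neg hm] at this ⊢
        exact this
    obtain ⟨x, hx, hx1, hx2, hx3⟩ := (hQ n u hu1).2 (fun m => if m < n₁ then h m else u m)
      (fun m hm => by
        have := hh m
        simp only [if_pos hm] at this ⊢
        exact this)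
      (fun m hm => by simp only [if_neg (not_lt.2 hm)]) H hH
    refine ⟨x, hx, fun m hm => ?_, fun m => ?_⟩
    · by_cases hm' : m < n₁
      · simp only [if_pos hm']; exact hx2 m hm'
      · simp only [if_neg hm']
        exact (hx3 m (not_lt.1 hm') hm).trans (hu4 n m).le
    · have h1 := hx1 m
      by_cases hm' : m < n₁
      · simp only [if_pos hm'] at h1; exact h1
      · simp only [if_neg hm'] at h1
        have h2 := hu2 m
        simp only [if_neg hm'] at h2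
        exact h2.trans h1

end Pool.Agent.Lib.MP_473540_gtM
end

section

/-!
Open covers of the large space have subcovers indexed by `Λ`, the small space has an open cover
without such a subcover.
-/

namespace Pool.Agent.Lib.MP_473540_gtM

open Cardinal Ordinal Filter Set

variable {Λ : Type} {κ : ℕ → Cardinal.{0}} {lam : Cardinal.{0}} {f : Ordinal.{0} → ℕ → Ordinal.{0}}

/-- **Open covers of the large space have subcovers indexed by `Λ`.** -/
theorem cover_YP (S : EubScale Λ κ lam f) {ι : Type*} (U : ι → Set (Pt Λ κ))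
    (hU : ∀ i, IsOpen (U i)) (hsU : YP Λ κ lam f ⊆ ⋃ i, U i) :
    ∃ s : Λ → ι, YP Λ κ lam f ⊆ ⋃ k, U (s k) := by
  by_contra hno
  have htop : (⟨fun m => (κ m).ord, fun m => ⟨le_rfl, S.toScale.big_ord m⟩⟩ : Pt Λ κ) ∈
      YP Λ κ lam f := ⟨lam.ord, le_rfl, S.toScale.big_lam, S.toScale.eub_top⟩
  obtain ⟨i₀, -⟩ := Set.mem_iUnion.1 (hsU htop)
  have hI : SIdeal Λ (fun A : Set (ℕ → Ordinal.{0}) => ∃ s : Λ → ι,
      ∀ x : Pt Λ κ, x.1 ∈ A → x ∈ YP Λ κ lam f → x ∈ ⋃ k, U (s k)) := by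
    refine ⟨⟨fun _ => i₀, fun x hx => absurd hx (Set.notMem_empty _)⟩, ?_, ?_⟩
    · rintro A B hAB ⟨s, h⟩
      exact ⟨s, fun x hx => h x (hAB hx)⟩
    · intro A hA
      choose s h using hA
      obtain ⟨e⟩ : Nonempty (Λ × Λ ↪ Λ) := by
        show #(Λ × Λ) ≤ #Λ
        rw [mk_prod, Cardinal.lift_id, mul_eq_self S.inf]
      have hne : Nonempty (Λ × Λ) := by
        obtain ⟨l⟩ : Nonempty Λ := mk_ne_zero_iff.1 (aleph0_pos.trans_le S.inf).ne'
        exact ⟨(l, l)⟩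
      have hs : Function.Surjective (Function.invFun e) := Function.invFun_surjective e.injective
      refine ⟨fun l => s (Function.invFun e l).1 (Function.invFun e l).2, fun x hx hxY => ?_⟩
      obtain ⟨k, hk⟩ := Set.mem_iUnion.1 hx
      obtain ⟨i, hi⟩ := Set.mem_iUnion.1 (h k x hk hxY)
      obtain ⟨l, hl⟩ := hs (k, i)
      refine Set.mem_iUnion.2 ⟨l, ?_⟩
      show x ∈ U (s (Function.invFun e l).1 (Function.invFun e l).2)
      rw [hl]
      exact hi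
  have hpos : ¬ (fun A : Set (ℕ → Ordinal.{0}) => ∃ s : Λ → ι,
      ∀ x : Pt Λ κ, x.1 ∈ A → x ∈ YP Λ κ lam f → x ∈ ⋃ k, U (s k)) (rk Λ κ f lam.ord) := by
    rintro ⟨s, h⟩
    exact hno ⟨s, fun x hx => h x ⟨x.2, hx⟩ hx⟩
  obtain ⟨δ, hδ, hB, e, he, hE, hmain⟩ := exists_least S hI le_rfl hpos
  have hy : (⟨e, he⟩ : Pt Λ κ) ∈ YP Λ κ lam f := ⟨δ, hδ, hB, hE⟩
  obtain ⟨i, hi⟩ := Set.mem_iUnion.1 (hsU hy)
  obtain ⟨n, h, hh, hsub⟩ := isOpen_def.1 (hU i) _ hi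
  obtain ⟨l⟩ : Nonempty Λ := mk_ne_zero_iff.1 (aleph0_pos.trans_le S.inf).ne'
  refine hmain h hh ⟨fun _ => i, fun x hx _ => Set.mem_iUnion.2 ⟨l, hsub ?_⟩⟩
  exact ⟨fun m _ => (hx.2 m).2, fun m => (hx.2 m).1⟩

/-- **The small space has an open cover without a subcover indexed by `Λ`.** -/
theorem not_cover_YY (S : EubScale Λ κ lam f) : ∃ O : ℕ × Ordinal.{0} → Set (Pt Λ κ),
    (∀ p, IsOpen (O p)) ∧ YY Λ κ lam f ⊆ ⋃ p, O p ∧
    ∀ s : Λ → ℕ × Ordinal.{0}, ∃ y ∈ YY Λ κ lam f, ∀ k, y ∉ O (s k) := by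
  refine ⟨fun p => {x : Pt Λ κ | p.2 < (κ p.1).ord ∧ x.1 p.1 ≤ p.2}, ?_, ?_, ?_⟩
  · intro p
    rw [isOpen_def]
    rintro y ⟨hy1, hy2⟩
    refine ⟨p.1 + 1, fun _ => 0, fun m => (y.2 m).2.1, fun x hx => ⟨hy1, ?_⟩⟩
    exact (hx.1 p.1 (Nat.lt_succ_self _)).trans hy2
  · intro y hy
    obtain ⟨m, hm⟩ := (lt_of_mem_YY S.toScale hy).exists
    exact Set.mem_iUnion.2 ⟨(m, y.1 m), hm, le_rfl⟩
  · intro s
    have hb : ∀ m : ℕ, ∃ b < (κ m).ord, ∀ k, (s k).1 = m → (s k).2 < (κ m).ord →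
        (s k).2 < b := by
      intro m
      classical
      obtain ⟨b, hb, h⟩ := (S.toScale.big_ord m).2
        (fun k => if (s k).1 = m ∧ (s k).2 < (κ m).ord then (s k).2 else 0) (by
          intro p
          split_ifs with h
          · exact h.2
          · exact (S.toScale.big_ord m).1)
      refine ⟨b, hb, fun p h1 h2 => ?_⟩
      have h3 := h p
      rwa [if_pos ⟨h1, h2⟩] at h3
    choose b hbκ hb using hb
    obtain ⟨δ, hδ, hB, χ, hχ, hE, hlim⟩ := exists_limit S.toScale (fun _ _ => b)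
      (fun _ _ _ m => hbκ m)
    obtain ⟨u, -, -, -, hu⟩ := hlim (fun _ => 0) (fun m => (hχ m).2.1)
    refine ⟨⟨χ, hχ⟩, ⟨δ, hδ, hB, hE⟩, fun k hk => ?_⟩
    obtain ⟨h1, h2⟩ := hk
    have h3 := hb _ k rfl h1
    exact absurd (h2.trans_lt (h3.trans (hu 0 _))) (lt_irrefl _)

end Pool.Agent.Lib.MP_473540_gtM
end

section

/-!
Separation of two families of sets which are indexed by a small preorder.
-/

namespace Pool.Agent.Lib.MP_473540_gtM

open Cardinal Ordinal Filter Set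

variable {Λ : Type} {κ : ℕ → Cardinal.{0}} {lam : Cardinal.{0}} {f : Ordinal.{0} → ℕ → Ordinal.{0}}

/-- the closure of a family of sets which is indexed by a preorder -/
def PCl {P : Type} [Preorder P] (p₀ : P) (H : P → Set (Pt Λ κ)) (z : Pt Λ κ) : Prop :=
  ∀ p ≤ p₀, ∀ (n : ℕ) (h : ℕ → Ordinal.{0}), (∀ m, h m < z.1 m) →
    ∃ q ≤ p, ∃ x ∈ H q, x ∈ bx Λ κ z.1 n h

theorem PCl.mono {P : Type} [Preorder P] {p₀ p₁ : P} (hp : p₁ ≤ p₀) {H : P → Set (Pt Λ κ)}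
    {z : Pt Λ κ} (h : PCl p₀ H z) : PCl p₁ H z := fun p hpp => h p (hpp.trans hp)

/-- a point of rank `lam` in the closure is the limit of points which are below `κ` from a fixed
coordinate on -/
theorem exists_tail_closure (S : Scale Λ κ lam f) {P : Type} [Preorder P] (hP : #P ≤ #Λ)
    {H : P → Set (Pt Λ κ)} (hH : ∀ p, H p ⊆ YY Λ κ lam f) (hanti : ∀ p q, p ≤ q → H q ⊆ H p)
    {z : Pt Λ κ} {n₁ : ℕ} (hz₁ : ∀ m ≥ n₁, z.1 m = (κ m).ord) {p₀ : P} (hz : PCl p₀ H z) :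
    ∃ p₁ ≤ p₀, ∃ N : ℕ, ∀ p ≤ p₁, ∀ h : ℕ → Ordinal.{0}, (∀ m, h m < z.1 m) →
      ∃ q ≤ p, ∃ x ∈ H q, (∀ m, x.1 m ≤ z.1 m) ∧ (∀ m, h m < x.1 m) ∧
        ∀ m ≥ N, x.1 m < (κ m).ord := by
  by_contra hcon
  push Not at hcon
  choose p' hp' h hh hno using hcon
  have hb : ∀ m, ∃ b < z.1 m, ∀ i : {p // p ≤ p₀} × ℕ, h i.1.1 i.1.2 i.2 m < b := by
    intro m
    refine (z.2 m).2.small ?_ (fun i : {p // p ≤ p₀} × ℕ => h i.1.1 i.1.2 i.2 m)
      fun i => hh _ _ _ m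
    rw [mk_prod, Cardinal.lift_id, Cardinal.lift_id, mk_nat]
    refine (mul_le_mul' ((Cardinal.mk_subtype_le _).trans hP) S.inf).trans ?_
    rw [mul_eq_self S.inf]
  choose h' hh' hb using hb
  obtain ⟨q, hq, x, hx, hx1, hx2⟩ := hz p₀ le_rfl n₁ h' hh'
  obtain ⟨N, hN⟩ := eventually_atTop.1 (lt_of_mem_YY S (hH q hx))
  obtain ⟨m, hm, hm'⟩ := hno q hq N (p' q hq N) le_rfl x (hanti _ _ (hp' q hq N) hx) (fun m => by
      rcases lt_or_ge m n₁ with h1 | h1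
      · exact hx1 m h1
      · rw [hz₁ m h1]
        exact (x.2 m).1) (fun m => (hb m (⟨q, hq⟩, N)).trans (hx2 m))
  exact absurd (hN m hm) (not_lt.2 hm')

/-- **Common limit points reflect to the small space.** -/
theorem exists_common (S : EubScale Λ κ lam f) {P : Type} [Preorder P] (hP : #P ≤ #Λ)
    {H K : P → Set (Pt Λ κ)} (hH : ∀ p, H p ⊆ YY Λ κ lam f) (hHa : ∀ p q, p ≤ q → H q ⊆ H p)
    (hK : ∀ p, K p ⊆ YY Λ κ lam f) (hKa : ∀ p q, p ≤ q → K q ⊆ K p)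
    {z : Pt Λ κ} (hz : z ∈ YP Λ κ lam f) {p₀ : P} (hzH : PCl p₀ H z) (hzK : PCl p₀ K z) :
    ∃ p₁ ≤ p₀, ∃ e ∈ YY Λ κ lam f, PCl p₁ H e ∧ PCl p₁ K e := by
  by_cases hyY : z ∈ YY Λ κ lam f
  · exact ⟨p₀, le_rfl, z, hyY, hzH, hzK⟩
  obtain ⟨n₁, hn₁⟩ := eventually_atTop.1 (eq_of_mem_YP S.toScale hz hyY)
  obtain ⟨p₁, hp₁, N, hN⟩ := exists_tail_closure S.toScale hP hH hHa hn₁ hzH
  obtain ⟨p₂, hp₂, N', hN'⟩ := exists_tail_closure S.toScale hP hK hKa hn₁ (hzK.mono hp₁)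
  have hle1 : n₁ ≤ max (max n₁ 1) (max N N') := (le_max_left _ _).trans (le_max_left _ _)
  have hle2 : 1 ≤ max (max n₁ 1) (max N N') := (le_max_right _ _).trans (le_max_left _ _)
  have hle3 : N ≤ max (max n₁ 1) (max N N') := (le_max_left _ _).trans (le_max_right _ _)
  have hle4 : N' ≤ max (max n₁ 1) (max N N') := (le_max_right _ _).trans (le_max_right _ _)
  generalize max (max n₁ 1) (max N N') = n₂ at hle1 hle2 hle3 hle4
  have hsm : #{p // p ≤ p₂} ≤ #Λ := (Cardinal.mk_subtype_le _).trans hP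
  obtain ⟨F, hF⟩ : ∃ F : Set (Set (ℕ → Ordinal.{0})), F =
      {A | ∃ p ≤ p₂, A = {x | ∃ q ≤ p, ∃ y ∈ H q, y.1 = x} ∨
        A = {x | ∃ q ≤ p, ∃ y ∈ K q, y.1 = x}} := ⟨_, rfl⟩
  have hStar : Star κ n₂ z.1 F := by
    intro n u hu1 hu2
    have hu : ∀ m, u m < z.1 m := fun m => by
      rcases lt_or_ge m n₂ with h1 | h1
      · exact hu1 m h1
      · rw [hn₁ m (hle1.trans h1)]
        exact hu2 m h1
    choose q hq x hx hx1 hx2 hx3 using fun p : {p // p ≤ p₂} => hN p.1 (p.2.trans hp₂) u hu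
    choose q' hq' x' hx' hx1' hx2' hx3' using fun p : {p // p ≤ p₂} => hN' p.1 p.2 u hu
    have hb : ∀ m ≥ n₂, ∃ b < (κ m).ord, ∀ p, (x p).1 m < b := fun m hm =>
      (S.toScale.big_ord m).small hsm (fun p => (x p).1 m) fun p => hx3 p m (hle3.trans hm)
    have hb' : ∀ m ≥ n₂, ∃ b < (κ m).ord, ∀ p, (x' p).1 m < b := fun m hm =>
      (S.toScale.big_ord m).small hsm (fun p => (x' p).1 m) fun p => hx3' p m (hle4.trans hm)
    choose! b hbκ hb using hb
    choose! b' hbκ' hb' using hb'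
    refine ⟨fun m => if m < n₂ then 0 else max (b m) (b' m), fun m => ?_, ?_⟩
    · show (if m < n₂ then 0 else max (b m) (b' m)) < (κ m).ord
      split_ifs with h1
      · exact (S.toScale.big_ord m).1
      · exact max_lt (hbκ m (not_lt.1 h1)) (hbκ' m (not_lt.1 h1))
    · intro A hA
      rw [hF] at hA
      obtain ⟨p, hp, hA⟩ := hA
      rcases hA with rfl | rfl
      · refine ⟨(x ⟨p, hp⟩).1, ⟨q ⟨p, hp⟩, hq _, x ⟨p, hp⟩, hx _, rfl⟩, hx2 _,
          fun m _ => hx1 _ m, fun m h1 _ => ?_⟩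
        show (x ⟨p, hp⟩).1 m ≤ if m < n₂ then 0 else max (b m) (b' m)
        rw [if_neg (not_lt.2 h1)]
        exact (hb m h1 _).le.trans (le_max_left _ _)
      · refine ⟨(x' ⟨p, hp⟩).1, ⟨q' ⟨p, hp⟩, hq' _, x' ⟨p, hp⟩, hx' _, rfl⟩, hx2' _,
          fun m _ => hx1' _ m, fun m h1 _ => ?_⟩
        show (x' ⟨p, hp⟩).1 m ≤ if m < n₂ then 0 else max (b m) (b' m)
        rw [if_neg (not_lt.2 h1)]
        exact (hb' m h1 _).le.trans (le_max_right _ _)
  obtain ⟨δ, hδ, hB, e, he, hE, hcl⟩ := reflect S.toScale hle2 (fun m _ => z.2 m) hStar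
  refine ⟨p₂, hp₂.trans hp₁, ⟨e, he⟩, ⟨δ, hδ, hB, hE⟩, ?_, ?_⟩
  · intro p hp n h hh
    obtain ⟨x, ⟨q, hq, y, hy, rfl⟩, h1, h2⟩ := hcl {x | ∃ q ≤ p, ∃ y ∈ H q, y.1 = x}
      (by rw [hF]; exact ⟨p, hp, Or.inl rfl⟩) n h hh
    exact ⟨q, hq, y, hy, h1, h2⟩
  · intro p hp n h hh
    obtain ⟨x, ⟨q, hq, y, hy, rfl⟩, h1, h2⟩ := hcl {x | ∃ q ≤ p, ∃ y ∈ K q, y.1 = x}
      (by rw [hF]; exact ⟨p, hp, Or.inr rfl⟩) n h hh
    exact ⟨q, hq, y, hy, h1, h2⟩

/-- **The separation property of the small space.** -/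
theorem sep_YY (S : EubScale Λ κ lam f) (P : Type) [Preorder P] (p₀ : P)
    (H K : P → Set ↥(YY Λ κ lam f)) (hP : #P ≤ #Λ)
    (hHa : ∀ p q, p ≤ q → H q ⊆ H p) (hKa : ∀ p q, p ≤ q → K q ⊆ K p)
    (hyp : ∀ p ≤ p₀, ∀ e : ↥(YY Λ κ lam f), ∃ q ≤ p, ∃ U, IsOpen U ∧ e ∈ U ∧
      ((∀ r ≤ q, Disjoint U (H r)) ∨ ∀ r ≤ q, Disjoint U (K r))) :
    ∃ b : Λ → Set ↥(YY Λ κ lam f), (∀ i, IsClopen (b i)) ∧ (∀ y, ∃ i, y ∈ b i) ∧
      ∀ i, ∃ q ≤ p₀, (∀ r ≤ q, Disjoint (b i) (H r)) ∨ ∀ r ≤ q, Disjoint (b i) (K r) := by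
  have hsub : YY Λ κ lam f ⊆ YP Λ κ lam f := fun y hy => by
    obtain ⟨δ, hδ, h⟩ := hy
    exact ⟨δ, hδ.le, h⟩
  obtain ⟨H', hH'⟩ : ∃ H' : P → Set (Pt Λ κ), H' = fun p => (fun x : ↥(YY Λ κ lam f) => x.1) '' H p :=
    ⟨_, rfl⟩
  obtain ⟨K', hK'⟩ : ∃ K' : P → Set (Pt Λ κ), K' = fun p => (fun x : ↥(YY Λ κ lam f) => x.1) '' K p :=
    ⟨_, rfl⟩
  have hdis : ∀ (A : P → Set ↥(YY Λ κ lam f)) (r : P) (U : Set (Pt Λ κ)),
      Disjoint (Subtype.val ⁻¹' U) (A r) ↔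
        Disjoint U ((fun x : ↥(YY Λ κ lam f) => x.1) '' A r) := by
    intro A r U
    rw [Set.disjoint_left, Set.disjoint_left]
    constructor
    · rintro h _ h1 ⟨x, hx, rfl⟩
      exact h h1 hx
    · intro h x h1 hx
      exact h h1 ⟨x, hx, rfl⟩
  have hcov : YP Λ κ lam f ⊆ ⋃ b : {b : Set (Pt Λ κ) // IsClopen b ∧ ∃ q ≤ p₀,
      (∀ r ≤ q, Disjoint b (H' r)) ∨ ∀ r ≤ q, Disjoint b (K' r)}, b.1 := by
    intro z hz
    by_contra hno
    have hno' : ∀ b : Set (Pt Λ κ), IsClopen b → z ∈ b → ∀ q ≤ p₀,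
        ¬ (∀ r ≤ q, Disjoint b (H' r)) ∧ ¬ ∀ r ≤ q, Disjoint b (K' r) := by
      intro b hb hzb q hq
      refine ⟨fun h => hno ?_, fun h => hno ?_⟩
      · exact Set.mem_iUnion.2 ⟨⟨b, hb, q, hq, Or.inl h⟩, hzb⟩
      · exact Set.mem_iUnion.2 ⟨⟨b, hb, q, hq, Or.inr h⟩, hzb⟩
    have hcl : PCl p₀ H' z ∧ PCl p₀ K' z := by
      refine ⟨fun p hp n h hh => ?_, fun p hp n h hh => ?_⟩
      · obtain ⟨h1, -⟩ := hno' (bx Λ κ z.1 n h) ⟨isClosed_bx _ _ _, isOpen_bx _ _ _⟩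
          ⟨fun _ _ => le_rfl, hh⟩ p hp
        push Not at h1
        obtain ⟨r, hr, hr'⟩ := h1
        obtain ⟨x, hx1, hx2⟩ := Set.not_disjoint_iff.1 hr'
        exact ⟨r, hr, x, hx2, hx1⟩
      · obtain ⟨-, h1⟩ := hno' (bx Λ κ z.1 n h) ⟨isClosed_bx _ _ _, isOpen_bx _ _ _⟩
          ⟨fun _ _ => le_rfl, hh⟩ p hp
        push Not at h1
        obtain ⟨r, hr, hr'⟩ := h1
        obtain ⟨x, hx1, hx2⟩ := Set.not_disjoint_iff.1 hr'
        exact ⟨r, hr, x, hx2, hx1⟩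
    obtain ⟨p₁, hp₁, e, he, heH, heK⟩ := exists_common S hP (H := H') (K := K')
      (by rw [hH']; rintro p _ ⟨x, -, rfl⟩; exact x.2)
      (by rw [hH']; intro p q hpq; exact Set.image_mono (hHa p q hpq))
      (by rw [hK']; rintro p _ ⟨x, -, rfl⟩; exact x.2)
      (by rw [hK']; intro p q hpq; exact Set.image_mono (hKa p q hpq)) hz hcl.1 hcl.2
    obtain ⟨q, hq, U, hU, heU, hor⟩ := hyp p₁ hp₁ ⟨e, he⟩
    obtain ⟨W, hW, rfl⟩ := isOpen_induced_iff.1 hU
    obtain ⟨n, h, hh, hsW⟩ := isOpen_def.1 hW e heU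
    rcases hor with hor | hor
    · obtain ⟨r, hr, x, hx1, hx2⟩ := heH q hq n h hh
      have h1 := (hdis H r W).1 (hor r hr)
      rw [hH'] at hx1
      exact Set.disjoint_left.1 h1 (hsW hx2) hx1
    · obtain ⟨r, hr, x, hx1, hx2⟩ := heK q hq n h hh
      have h1 := (hdis K r W).1 (hor r hr)
      rw [hK'] at hx1
      exact Set.disjoint_left.1 h1 (hsW hx2) hx1
  obtain ⟨s, hs⟩ := cover_YP S _ (fun b => b.2.1.2) hcov
  refine ⟨fun i => Subtype.val ⁻¹' (s i).1, fun i => ?_, fun y => ?_, fun i => ?_⟩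
  · exact (s i).2.1.preimage continuous_subtype_val
  · obtain ⟨i, hi⟩ := Set.mem_iUnion.1 (hs (hsub y.2))
    exact ⟨i, hi⟩
  · obtain ⟨q, hq, h⟩ := (s i).2.2
    refine ⟨q, hq, ?_⟩
    rcases h with h | h
    · left
      intro r hr
      have h1 : H' r = (fun x : ↥(YY Λ κ lam f) => x.1) '' H r := by rw [hH']
      rw [hdis, ← h1]
      exact h r hr
    · right
      intro r hr
      have h1 : K' r = (fun x : ↥(YY Λ κ lam f) => x.1) '' K r := by rw [hK']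
      rw [hdis, ← h1]
      exact h r hr

end Pool.Agent.Lib.MP_473540_gtM
end

section

/-!
The small space is linearly Lindelöf.
-/

namespace Pool.Agent.Lib.MP_473540_gtM

open Cardinal Ordinal Filter Set

variable {Λ : Type} {κ : ℕ → Cardinal.{0}} {lam : Cardinal.{0}} {f : Ordinal.{0} → ℕ → Ordinal.{0}}

/-- a chain of sets which is a cover without a small subcover is directed -/
theorem chain_directed {X : Type*} {𝒰 : Set (Set X)} (hc : IsChain (· ⊆ ·) 𝒰)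
    (hcov : ⋃₀ 𝒰 = Set.univ)
    (hno : ¬ ∃ V : Λ → Set X, (∀ k, V k ∈ 𝒰) ∧ ⋃ k, V k = Set.univ) (V : Λ → Set X)
    (hV : ∀ k, V k ∈ 𝒰) : ∃ U ∈ 𝒰, ∀ k, V k ⊆ U := by
  have h1 : ⋃ k, V k ≠ Set.univ := fun h => hno ⟨V, hV, h⟩
  obtain ⟨x, hx⟩ : ∃ x, x ∉ ⋃ k, V k := by
    by_contra hc'
    push Not at hc'
    exact h1 (Set.eq_univ_of_forall hc')
  have hx' : x ∈ ⋃₀ 𝒰 := by rw [hcov]; trivial
  obtain ⟨U, hU, hxU⟩ := hx'
  refine ⟨U, hU, fun k => ?_⟩
  rcases hc.total hU (hV k) with h | h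
  · exact absurd (Set.mem_iUnion.2 ⟨k, h hxU⟩) hx
  · exact h

/-- the ideal of a chain -/
theorem chain_ideal {𝒰 : Set (Set ↥(YY Λ κ lam f))} (hc : IsChain (· ⊆ ·) 𝒰)
    (hne : 𝒰.Nonempty) (hcov : ⋃₀ 𝒰 = Set.univ)
    (hno : ¬ ∃ V : Λ → Set ↥(YY Λ κ lam f), (∀ k, V k ∈ 𝒰) ∧ ⋃ k, V k = Set.univ) :
    SIdeal Λ (fun A => ∃ U ∈ 𝒰, ∀ x : ↥(YY Λ κ lam f), x.1.1 ∈ A → x ∈ U) := by
  obtain ⟨U₀, hU₀⟩ := hne
  refine ⟨⟨U₀, hU₀, fun x hx => absurd hx (Set.notMem_empty _)⟩, ?_, ?_⟩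
  · rintro A B hAB ⟨U, hU, h⟩
    exact ⟨U, hU, fun x hx => h x (hAB hx)⟩
  · intro A hA
    choose V hV hVA using hA
    obtain ⟨U, hU, hUV⟩ := chain_directed hc hcov hno V hV
    refine ⟨U, hU, fun x hx => ?_⟩
    obtain ⟨k, hk⟩ := Set.mem_iUnion.1 hx
    exact hUV k (hVA k x hk)

/-- if all sets of points of bounded rank are in the ideal then the chain is directed for families
indexed by finite sequences of ordinals below `κ n` -/
theorem chain_directed_lam (S : Scale Λ κ lam f) {𝒰 : Set (Set ↥(YY Λ κ lam f))}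
    (hc : IsChain (· ⊆ ·) 𝒰)
    (hno : ∀ U ∈ 𝒰, U ≠ Set.univ)
    (hI : ∀ δ < lam.ord, ∃ U ∈ 𝒰, ∀ x : ↥(YY Λ κ lam f), x.1.1 ∈ rk Λ κ f δ → x ∈ U) (n : ℕ)
    (V : (Fin n → Ordinal.{0}) → Set ↥(YY Λ κ lam f)) (hV : ∀ s, V s ∈ 𝒰) :
    ∃ U ∈ 𝒰, ∀ s : Fin n → Ordinal.{0}, (∀ i, s i < (κ n).ord) → V s ⊆ U := by
  -- `V s` is not everything (`{V s}` is not a countable subcover): choose a point `y s` outside of
  -- `V s`, with rank `r s < lam.ord`. `reg_bound_fun` with `c = lam`, `d = κ n` gives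
  -- `b < lam.ord` above all `r s`. Take `U` by `hI b`: `y s ∈ U`, so `V s ⊆ U` (`hc`).
  have h1 : ∀ s, ∃ (y : ↥(YY Λ κ lam f)) (r : Ordinal.{0}), y ∉ V s ∧ r < lam.ord ∧ Big Λ r ∧
      Eub f r y.1.1 := by
    intro s
    obtain ⟨y, hy⟩ : ∃ y, y ∉ V s := by
      by_contra hc'
      push Not at hc'
      exact hno (V s) (hV s) (Set.eq_univ_of_forall hc')
    obtain ⟨r, hr, hB, hE⟩ := y.2
    exact ⟨y, r, hy, hr, hB, hE⟩
  choose y r hy hr hB hE using h1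
  obtain ⟨b, hb, hb'⟩ := reg_bound_fun S.lreg (S.reg n).aleph0_le (S.lt_lam n) n r
    (fun s _ => hr s)
  obtain ⟨U, hU, hUb⟩ := hI b hb
  refine ⟨U, hU, fun s hs => ?_⟩
  have h2 : y s ∈ U := hUb (y s) ⟨(y s).1.2, r s, (hb' s hs).le, hB s, hE s⟩
  rcases hc.total hU (hV s) with h | h
  · exact absurd (h h2) (hy s)
  · exact h

/-- **The small space is linearly Lindelöf.** -/
theorem linL_YY (S : EubScale Λ κ lam f) : LinL Λ ↥(YY Λ κ lam f) := by
  -- Let `𝒰` be a chain of open sets which is a cover and suppose it has no countable subcover; let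
  -- `I` be the ideal of `chain_ideal`.
  -- Case 1: `¬ I (rk Λ κ f δ₀)` for some `δ₀ < lam.ord`. `exists_least` gives `δ ≤ δ₀` and `e`, a point
  -- of `YY`, in some `U ∈ 𝒰`, which contains all points of `YY` in `bx Λ κ e n h`, `h < e`; so the set
  -- of `exists_least` for `h` is in `I` (by `U`): contradiction.
  -- Case 2: `I (rk Λ κ f δ)` for all `δ < lam.ord`. `exists_pos` for
  -- `A n := {x | IsPt Λ κ x ∧ (∃ δ < lam.ord, Big Λ δ ∧ Eub f δ x) ∧ ∀ m ≥ n, x m < (κ m).ord}`,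
  -- `w m = (κ m).ord`, `N₀ = 1`. `⋃ n, A n` is the set of all points of `YY` (`lt_of_mem_YY`), not
  -- in `I` because otherwise `{U}` is a countable subcover. Condition `H`: change `h` to `0` at
  -- `m = 0`; `S.cof` gives `β < lam.ord` with `h < f β` for almost all `m`; if the rank of `x` is
  -- above `β` then `f β < x` for almost all `m` (`Eub.lt`); so the bad `x` are in `rk Λ κ f β`.
  -- We get `n₁ ≥ 1` and `p`. `Star κ n₁ p 𝓗` for the family `𝓗` of the sets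
  -- `H U := {x | ∃ y : ↥(YY Λ κ lam f), y.1.1 = x ∧ y ∉ U}`, `U ∈ 𝒰`: let `n`, `t` be given and suppose
  -- that there is no `q`. For `s : Fin n → Ordinal` with `s i < κ i` let `q s m = s m` for `m < n`,
  -- `0` otherwise; there is `V s ∈ 𝒰` such that no `x ∈ H (V s)` has `t < x`, `x m ≤ p m` for
  -- `m < n₁` and `x m ≤ q s m` for `n₁ ≤ m < n` (`V s` any element of `𝒰` for the other `s`).
  -- `chain_directed_lam` gives `U ∈ 𝒰` which contains the `V s` with `s i < κ i` for all `i`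
  -- (`κ i ≤ κ n`). Then every point `x ∈ A n₁` with `t < x` and `x m ≤ p m` for `m < n₁` is in `U`
  -- (take `s i = x i` for `n₁ ≤ i < n` and `0` for `i < n₁`): contradiction to `exists_pos` for
  -- `h = t`.
  -- `reflect` gives a point `e` of `YY` in the closure of all `H U`, `U ∈ 𝒰`. It is in some
  -- `U ∈ 𝒰`, which contains all points of `YY` in some `bx Λ κ e n h`, `h < e`: contradiction.
  classical
  intro 𝒰 hop hc hcov
  by_contra hno
  obtain ⟨l₀⟩ : Nonempty Λ := mk_ne_zero_iff.1 (aleph0_pos.trans_le S.inf).ne'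
  have hne : 𝒰.Nonempty := by
    obtain ⟨_, -, -, hO⟩ := not_cover_YY S
    obtain ⟨y, hy, -⟩ := hO fun _ => (0, 0)
    have h1 : (⟨y, hy⟩ : ↥(YY Λ κ lam f)) ∈ ⋃₀ 𝒰 := by rw [hcov]; trivial
    obtain ⟨U, hU, -⟩ := h1
    exact ⟨U, hU⟩
  have hno1 : ∀ U ∈ 𝒰, U ≠ Set.univ := by
    intro U hU h
    refine hno ⟨fun _ => U, fun _ => hU, ?_⟩
    rw [h]
    exact Set.eq_univ_of_forall fun x => Set.mem_iUnion.2 ⟨l₀, trivial⟩
  obtain ⟨I, hIdef⟩ : ∃ I : Set (ℕ → Ordinal.{0}) → Prop,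
      I = fun A => ∃ U ∈ 𝒰, ∀ x : ↥(YY Λ κ lam f), x.1.1 ∈ A → x ∈ U := ⟨_, rfl⟩
  have hI : SIdeal Λ I := by
    rw [hIdef]
    exact chain_ideal hc hne hcov hno
  have hIm : ∀ A, I A ↔ ∃ U ∈ 𝒰, ∀ x : ↥(YY Λ κ lam f), x.1.1 ∈ A → x ∈ U := by
    intro A
    rw [hIdef]
  have hopen : ∀ U ∈ 𝒰, ∀ e : ↥(YY Λ κ lam f), e ∈ U → ∃ (n : ℕ) (h : ℕ → Ordinal.{0}),
      (∀ m, h m < e.1.1 m) ∧ ∀ x : ↥(YY Λ κ lam f), x.1 ∈ bx Λ κ e.1.1 n h → x ∈ U := by
    intro U hU e he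
    obtain ⟨W, hW, hWU⟩ := isOpen_induced_iff.1 (hop U hU)
    subst hWU
    obtain ⟨n, h, hh, hs⟩ := isOpen_def.1 hW e.1 he
    exact ⟨n, h, hh, fun x hx => hs hx⟩
  have hmemU : ∀ x : ↥(YY Λ κ lam f), ∃ U ∈ 𝒰, x ∈ U := by
    intro x
    have h1 : x ∈ ⋃₀ 𝒰 := by rw [hcov]; trivial
    exact h1
  by_cases hcase : ∀ δ < lam.ord, I (rk Λ κ f δ)
  · obtain ⟨A, hAdef⟩ : ∃ A : ℕ → Set (ℕ → Ordinal.{0}), A = fun n =>
        {x | IsPt Λ κ x ∧ (∃ δ < lam.ord, Big Λ δ ∧ Eub f δ x) ∧ ∀ m ≥ n, x m < (κ m).ord} := ⟨_, rfl⟩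
    have hAm : ∀ n x, x ∈ A n ↔
        IsPt Λ κ x ∧ (∃ δ < lam.ord, Big Λ δ ∧ Eub f δ x) ∧ ∀ m ≥ n, x m < (κ m).ord := by
      intro n x
      rw [hAdef]
      exact Iff.rfl
    have hA : Monotone A := by
      intro a b hab x hx
      rw [hAm] at hx ⊢
      exact ⟨hx.1, hx.2.1, fun m hm => hx.2.2 m (le_trans hab hm)⟩
    have hUn : ∀ x : ↥(YY Λ κ lam f), x.1.1 ∈ ⋃ n, A n := by
      intro x
      obtain ⟨n, hn⟩ := Filter.eventually_atTop.1 (lt_of_mem_YY S.toScale x.2)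
      refine Set.mem_iUnion.2 ⟨n, ?_⟩
      rw [hAm]
      exact ⟨x.1.2, x.2, hn⟩
    have hpos : ¬ I (⋃ n, A n) := by
      rw [hIm]
      rintro ⟨U, hU, h⟩
      exact hno1 U hU (Set.eq_univ_of_forall fun x => h x (hUn x))
    obtain ⟨n₁, hn₁, p, hp, hpp⟩ := exists_pos S.inf (κ := κ) hI A hA hpos
      (fun n x hx => ((hAm n x).1 hx).1) (fun m => (κ m).ord) 1
      (fun m _ => S.toScale.big_ord m) (by
        intro h hh
        obtain ⟨β, hβ, hβ'⟩ := S.cof (fun m => if m = 0 then 0 else h m) (by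
          intro m
          by_cases hm : m = 0
          · simp only [hm, if_true]
            exact (S.toScale.big_ord 0).1
          · simp only [hm, if_false]
            exact hh m (Nat.one_le_iff_ne_zero.2 hm))
        refine hI.mono _ _ ?_ (hcase β hβ)
        rintro x ⟨hx, hx'⟩
        obtain ⟨n, hn⟩ := Set.mem_iUnion.1 hx
        rw [hAm] at hn
        obtain ⟨hx1, ⟨δ, hδ, hB, hE⟩, hx2⟩ := hn
        refine ⟨hx1, δ, ?_, hB, hE⟩
        by_contra hcon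
        apply hx'
        filter_upwards [Eub.lt S.toScale hδ.le hB hE (not_le.1 hcon), hβ',
          Filter.eventually_ge_atTop 1] with m h3 h4 h5
        have h6 : m ≠ 0 := Nat.one_le_iff_ne_zero.1 h5
        simp only [h6, if_false] at h4
        exact lt_trans h4 h3)
    obtain ⟨U₀, hU₀⟩ := hne
    obtain ⟨F, hF⟩ : ∃ F : Set (Set (ℕ → Ordinal.{0})), F =
        {H | ∃ U ∈ 𝒰, H = {x | ∃ y : ↥(YY Λ κ lam f), y.1.1 = x ∧ y ∉ U}} := ⟨_, rfl⟩
    have hStar : Star κ n₁ p F := by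
      intro n t ht1 ht2
      by_contra hcon
      have hV : ∀ s : Fin n → Ordinal.{0}, ∃ V ∈ 𝒰, (∀ i : Fin n, s i < (κ i).ord) →
          ∀ y : ↥(YY Λ κ lam f), (∀ m, t m < y.1.1 m) → (∀ m < n₁, y.1.1 m ≤ p m) →
            (∀ m, n₁ ≤ m → ∀ hm : m < n, y.1.1 m ≤ s ⟨m, hm⟩) → y ∈ V := by
        intro s
        by_cases hs : ∀ i : Fin n, s i < (κ i).ord
        · by_contra hV
          apply hcon
          refine ⟨fun m => if hm : m < n then s ⟨m, hm⟩ else 0, ?_, ?_⟩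
          · intro m
            by_cases hm : m < n
            · simp only [hm, dif_pos]
              exact hs ⟨m, hm⟩
            · simp only [hm, dif_neg, not_false_eq_true]
              exact (S.toScale.big_ord m).1
          · intro H hH
            rw [hF] at hH
            obtain ⟨U, hU, rfl⟩ := hH
            by_contra hc2
            apply hV
            refine ⟨U, hU, fun _ y h1 h2 h3 => ?_⟩
            by_contra hyU
            apply hc2
            refine ⟨y.1.1, ⟨y, rfl, hyU⟩, h1, h2, fun m hm1 hm2 => ?_⟩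
            simp only [hm2, dif_pos]
            exact h3 m hm1 hm2
        · exact ⟨U₀, hU₀, fun h => absurd h hs⟩
      choose V hV𝒰 hVp using hV
      obtain ⟨U, hU, hUV⟩ := chain_directed_lam S.toScale hc hno1
        (fun δ hδ => (hIm _).1 (hcase δ hδ)) n V hV𝒰
      refine hpp t ht1 ht2 ((hIm _).2 ⟨U, hU, fun y hy => ?_⟩)
      obtain ⟨hy1, hy2, hy3⟩ := hy
      rw [hAm] at hy1
      have hs : ∀ i : Fin n, (if n₁ ≤ (i : ℕ) then y.1.1 i else 0) < (κ i).ord := by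
        intro i
        by_cases hi : n₁ ≤ (i : ℕ)
        · simp only [hi, if_true]
          exact hy1.2.2 i hi
        · simp only [hi, if_false]
          exact (S.toScale.big_ord i).1
      refine hUV (fun i => if n₁ ≤ (i : ℕ) then y.1.1 i else 0) (fun i => ?_)
        (hVp _ hs y (fun m => ?_) (fun m hm => (hy2 m hm).2) (fun m hm1 hm2 => ?_))
      · exact lt_of_lt_of_le (hs i) (Cardinal.ord_le_ord.2 (S.mono i.2).le)
      · by_cases hm : m < n₁
        · exact (hy2 m hm).1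
        · exact hy3 m (not_lt.1 hm)
      · simp only [hm1, if_true]
        exact le_rfl
    obtain ⟨δ, hδ, hB, e, hePt, heE, hcl⟩ := reflect S.toScale hn₁ hp hStar
    have heY : (⟨e, hePt⟩ : Pt Λ κ) ∈ YY Λ κ lam f := ⟨δ, hδ, hB, heE⟩
    obtain ⟨U, hU, heU⟩ := hmemU ⟨⟨e, hePt⟩, heY⟩
    obtain ⟨n, h, hh, hs⟩ := hopen U hU _ heU
    obtain ⟨x, hxH, hx1, hx2⟩ := hcl {x | ∃ y : ↥(YY Λ κ lam f), y.1.1 = x ∧ y ∉ U}
      (by rw [hF]; exact ⟨U, hU, rfl⟩) n h hh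
    obtain ⟨y, hyx, hyU⟩ := hxH
    subst hyx
    exact hyU (hs y ⟨hx1, hx2⟩)
  · push Not at hcase
    obtain ⟨δ₀, hδ₀, hpos⟩ := hcase
    obtain ⟨δ, hδ, hB, e, hePt, heE, hmin⟩ := exists_least S hI hδ₀.le hpos
    have heY : (⟨e, hePt⟩ : Pt Λ κ) ∈ YY Λ κ lam f := ⟨δ, lt_of_le_of_lt hδ hδ₀, hB, heE⟩
    obtain ⟨U, hU, heU⟩ := hmemU ⟨⟨e, hePt⟩, heY⟩
    obtain ⟨n, h, hh, hs⟩ := hopen U hU _ heU
    exact hmin h hh ((hIm _).2
      ⟨U, hU, fun x hx => hs x ⟨fun m _ => (hx.2 m).2, fun m => (hx.2 m).1⟩⟩)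

end Pool.Agent.Lib.MP_473540_gtM
end

section

/-!
There are scales.
-/

namespace Pool.Agent.Lib.MP_473540_gtM

open Cardinal Ordinal Filter Set

/-- **There are scales with exact upper bounds.** -/
theorem exists_eubScale (Λ : Type) (hΛ : ℵ₀ ≤ #Λ) (hpow : #Λ ^ ℵ₀ = #Λ) :
    ∃ κ lam f, EubScale Λ κ lam f := by
  -- (a) `exists_cSeq` gives `c`, `K`; `lam = Order.succ K`, regular (`isRegular_succ`, `ℵ₀ ≤ K`).
  -- (b) `exists_rec` for `D = ℕ → Ordinal.{0}`, `R u v := ∀ᶠ n, u n < v n`,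
  -- `Q α v := ∀ n, v n < (c n).ord` gives `g` (hypothesis: `CSeq.directed` for the family
  -- `fun i : α.ToType => u i`, `#α.ToType ≤ K` because `α < (succ K).ord`).
  -- (c) `exists_eub_of_lt` for `g`, `δ = lam.ord` (`hlam.cof_ord`), `B n = (c n).ord` gives `v` with
  -- `#Λ < (v m).cof` for almost all `m` and `Eub g lam.ord v`.
  -- (d) `CSeq.large`: the cofinalities tend to `K`. (e) `(v n).cof < K` for almost all `n`:
  -- `v n ≤ (c n).ord` for almost all `n` (otherwise, infinitely often `(c n).ord < v n`; the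
  -- function `h n = (c n).ord` if `(c n).ord < v n`, else `0` is below `v` almost everywhere, so by
  -- `Eub` below some `g β`, contradiction to `g β n < (c n).ord`), `Ordinal.cof_le_card`,
  -- `card_ord`, `c n < K`.
  -- (f) `exists_subseq` for `w n = (v n).cof`, `μ = #Λ` gives `s`; `κ k = (v (s k)).cof`;
  -- `exists_fund` gives `C k`. (g) `exists_pull`, `exists_scale_of`, `Scale.toEubScale hpow`
  -- (Cont.lean).
  classical
  obtain ⟨c, K, h⟩ := exists_cSeq Λ hΛ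
  have hK : ℵ₀ ≤ K := h.inf.trans (h.unc.le.trans (h.lt 0).le)
  have hreg := isRegular_succ hK
  obtain ⟨g, hg⟩ := exists_rec (D := ℕ → Ordinal.{0}) (fun _ => 0) (Order.succ K).ord
    (fun u v => ∀ᶠ n in atTop, u n < v n) (fun _ v => ∀ n, v n < (c n).ord) (by
      intro α hα u hu
      have h1 : #α.ToType ≤ K := by
        rw [mk_toType]
        exact Order.lt_succ_iff.1 (lt_ord.1 hα)
      obtain ⟨v, hv, hv'⟩ := h.directed h1
        (fun i => u ((Ordinal.ToType.mk.symm i : Iio α) : Ordinal.{0}))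
        (fun i n => hu _ (Ordinal.ToType.mk.symm i).2 n)
      refine ⟨v, hv, fun β hβ => ?_⟩
      have h2 := hv' (Ordinal.ToType.mk ⟨β, hβ⟩)
      rwa [OrderIso.symm_apply_apply] at h2)
  have hgm : ∀ α < (Order.succ K).ord, ∀ n, g α n < (c n).ord := fun α hα => (hg α hα).1
  have hinc : ∀ α β, α < β → β < (Order.succ K).ord → ∀ᶠ n in atTop, g α n < g β n :=
    fun α β hαβ hβ => (hg β hβ).2 α hαβ
  have hΛK : #Λ < K := h.unc.trans (h.lt 0)
  have hcof : #Λ < (Order.succ K).ord.cof := by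
    rw [hreg.cof_ord]
    exact hΛK.trans (Order.lt_succ K)
  obtain ⟨v, hvb, hv⟩ := exists_eub_of_lt hΛ hpow hcof (fun n => (c n).ord) hgm hinc
  have hlam : ∀ α < (Order.succ K).ord, α + 1 < (Order.succ K).ord := by
    intro α hα
    have h1 := (isSuccLimit_ord (hK.trans (Order.le_succ K))).succ_lt hα
    rwa [Order.succ_eq_add_one] at h1
  have hlam0 : 0 < (Order.succ K).ord :=
    Cardinal.ord_pos.2 (lt_of_lt_of_le Cardinal.aleph0_pos (hK.trans (Order.le_succ K)))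
  have hgv : ∀ α < (Order.succ K).ord, ∀ᶠ n in atTop, g α n < v n := fun α hα =>
    (hv (g α)).2 ⟨α + 1, hlam α hα, hinc α (α + 1) (Order.lt_add_one_iff.2 le_rfl) (hlam α hα)⟩
  have hpos : ∀ᶠ n in atTop, 0 < v n := by
    filter_upwards [hgv 0 hlam0] with n hn
    exact lt_of_le_of_lt zero_le hn
  have hlarge : ∀ θ < K, ∀ᶠ n in atTop, θ < (v n).cof := fun θ hθ => h.large hinc hv hpos hθ
  have hvle : ∀ᶠ n in atTop, v n ≤ (c n).ord := by
    by_contra hcon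
    rw [Filter.not_eventually] at hcon
    obtain ⟨β, hβ, hβ'⟩ := (hv (fun n => if (c n).ord < v n then (c n).ord else 0)).1 (by
      filter_upwards [hpos] with n hn
      by_cases hc : (c n).ord < v n
      · rw [if_pos hc]
        exact hc
      · rw [if_neg hc]
        exact hn)
    obtain ⟨n, hn, hn'⟩ := (hcon.and_eventually hβ').exists
    rw [if_pos (not_le.1 hn)] at hn'
    exact absurd (hn'.trans (hgm β hβ n)) (lt_irrefl _)
  have hvK : ∀ᶠ n in atTop, (v n).cof < K := by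
    filter_upwards [hvle] with n hn
    have h1 : (v n).card ≤ c n := by
      rw [← card_ord (c n)]
      exact card_le_card hn
    exact ((cof_le_card _).trans h1).trans_lt (h.lt n)
  obtain ⟨s, hs, hs1, hs2, hs3⟩ := exists_subseq hΛK hvK hlarge
  have hfund := fun k => exists_fund (v := v (s k)) (hΛ.trans (hs2 k).le)
  choose hreg' C hC1 hC2 hC3 using hfund
  obtain ⟨f, hf, hf2, hf3⟩ := exists_pull hlam hlam0 hinc hv hs
    (κ := fun k => (v (s k)).cof) (fun k => hΛ.trans (hs2 k).le) hC1 hC2 hC3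
  obtain ⟨f', S⟩ := exists_scale_of hΛ (κ := fun k => (v (s k)).cof) hreg' hs1 (hs2 0) hreg
    (fun n => (hs3 n).trans (Order.lt_succ K)) hf hf2 hf3
  exact ⟨_, _, f', S.toEubScale hpow⟩

end Pool.Agent.Lib.MP_473540_gtM
end

section

/-!
The space of the ground model.
-/

namespace Pool.Agent.Lib.MP_473540_gtM

open Cardinal Ordinal Filter Set

universe u v

/-- transport along homeomorphisms -/
theorem MuSpace.homeo {Λ : Type} {X : Type u} {Y : Type v} [TopologicalSpace X]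
    [TopologicalSpace Y] (φ : X ≃ₜ Y) (h : MuSpace Λ X) : MuSpace Λ Y where
  inf := h.inf
  ne := ⟨φ h.ne.some⟩
  t1 := by
    have := h.t1
    exact φ.t1Space
  zd := by
    intro U y hU hy
    obtain ⟨C, hC, hyC, hCU⟩ := h.zd (φ ⁻¹' U) (φ.symm y) (hU.preimage φ.continuous)
      (by simpa using hy)
    refine ⟨φ.symm ⁻¹' C, hC.preimage φ.symm.continuous, hyC, fun z hz => ?_⟩
    have := hCU hz
    simpa using this
  cap := by
    intro J g hJ hJ'
    obtain ⟨x, hx⟩ := h.cap J (fun j => φ.symm (g j)) hJ hJ'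
    refine ⟨φ x, fun U hU hxU => ?_⟩
    have h1 := hx (φ ⁻¹' U) (hU.preimage φ.continuous) hxU
    simpa using h1
  not_cover := by
    obtain ⟨𝒪, h1, h2, h3⟩ := h.not_cover
    refine ⟨(fun O => φ.symm ⁻¹' O) '' 𝒪, ?_, ?_, ?_⟩
    · rintro _ ⟨O, hO, rfl⟩
      exact (h1 O hO).preimage φ.symm.continuous
    · intro y
      obtain ⟨O, hO, hy⟩ := h2 (φ.symm y)
      exact ⟨_, ⟨O, hO, rfl⟩, hy⟩
    · intro s hs
      choose O hO hOs using hs
      obtain ⟨x, hx⟩ := h3 O hO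
      refine ⟨φ x, fun k hk => hx k ?_⟩
      rw [← hOs k] at hk
      simpa using hk
  sep := by
    intro P _ p₀ H K hP hH hK hyp
    have hdis : ∀ (A : P → Set Y) (r : P) (U : Set X),
        Disjoint U (φ ⁻¹' A r) ↔ Disjoint (φ.symm ⁻¹' U) (A r) := by
      intro A r U
      rw [Set.disjoint_left, Set.disjoint_left]
      constructor
      · intro h4 y h5 h6
        refine h4 (a := φ.symm y) h5 ?_
        simpa using h6
      · intro h4 x h5 h6
        refine h4 (a := φ x) ?_ h6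
        simpa using h5
    obtain ⟨b, h1, h2, h3⟩ := h.sep P p₀ (fun p => φ ⁻¹' H p) (fun p => φ ⁻¹' K p) hP
      (fun p q hpq => Set.preimage_mono (hH p q hpq)) (fun p q hpq => Set.preimage_mono (hK p q hpq))
      (by
        intro p hp e
        obtain ⟨q, hq, U, hU, heU, h4⟩ := hyp p hp (φ e)
        have h5 : φ.symm ⁻¹' (φ ⁻¹' U) = U := by
          ext z
          simp
        refine ⟨q, hq, φ ⁻¹' U, hU.preimage φ.continuous, heU, ?_⟩
        rcases h4 with h4 | h4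
        · left
          intro r hr
          rw [hdis, h5]
          exact h4 r hr
        · right
          intro r hr
          rw [hdis, h5]
          exact h4 r hr)
    refine ⟨fun i => φ.symm ⁻¹' b i, fun i => (h1 i).preimage φ.symm.continuous, fun y => ?_,
      fun i => ?_⟩
    · obtain ⟨i, hi⟩ := h2 (φ.symm y)
      exact ⟨i, hi⟩
    · obtain ⟨q, hq, h4⟩ := h3 i
      refine ⟨q, hq, ?_⟩
      rcases h4 with h4 | h4
      · left
        intro r hr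
        rw [← hdis]
        exact h4 r hr
      · right
        intro r hr
        rw [← hdis]
        exact h4 r hr

variable {Λ : Type} {κ : ℕ → Cardinal.{0}} {lam : Cardinal.{0}} {f : Ordinal.{0} → ℕ → Ordinal.{0}}

/-- the small space has all properties -/
theorem muSpace_YY (S : EubScale Λ κ lam f) : MuSpace Λ ↥(YY Λ κ lam f) where
  inf := S.inf
  ne := by
    obtain ⟨_, -, -, hO⟩ := not_cover_YY S
    obtain ⟨y, hy, -⟩ := hO fun _ => (0, 0)
    exact ⟨⟨y, hy⟩⟩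
  t1 := inferInstance
  zd := by
    intro U y hU hy
    obtain ⟨W, hW, rfl⟩ := isOpen_induced_iff.1 hU
    obtain ⟨n, h, hh, hs⟩ := isOpen_def.1 hW y.1 hy
    refine ⟨Subtype.val ⁻¹' bx Λ κ y.1.1 n h, ?_, ⟨fun _ _ => le_rfl, hh⟩, Set.preimage_mono hs⟩
    exact IsClopen.preimage ⟨isClosed_bx _ _ _, isOpen_bx _ _ _⟩ continuous_subtype_val
  cap := fun J g hJ hJ' => (linL_YY S).exists_cap J g hJ hJ'
  not_cover := by
    obtain ⟨O, h1, h2, h3⟩ := not_cover_YY S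
    refine ⟨Set.range fun p => (Subtype.val ⁻¹' O p : Set ↥(YY Λ κ lam f)), ?_, ?_, ?_⟩
    · rintro _ ⟨p, rfl⟩
      exact (h1 p).preimage continuous_subtype_val
    · intro y
      obtain ⟨p, hp⟩ := Set.mem_iUnion.1 (h2 y.2)
      exact ⟨_, ⟨p, rfl⟩, hp⟩
    · intro s hs
      choose p hp using hs
      obtain ⟨y, hy, h4⟩ := h3 p
      refine ⟨⟨y, hy⟩, fun k hk => h4 k ?_⟩
      rw [← hp k] at hk
      exact hk
  sep := fun P _ p₀ H K hP hH hK hyp => sep_YY S P p₀ H K hP hH hK hyp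

/-- the set of points is small -/
instance small_Pt (Λ : Type) (κ : ℕ → Cardinal.{0}) : Small.{0} (Pt Λ κ) := by
  refine small_of_injective (β := ∀ m, Set.Iic (κ m).ord) (f := fun y m => ⟨y.1 m, (y.2 m).1⟩) ?_
  intro y z h
  refine Subtype.ext (funext fun m => ?_)
  exact congrArg Subtype.val (congrFun h m)

/-- **The space of the ground model.** -/
theorem exists_muSpace (Λ : Type) (hΛ : ℵ₀ ≤ #Λ) (hpow : #Λ ^ ℵ₀ = #Λ) :
    ∃ (Y : Type) (_ : TopologicalSpace Y), MuSpace Λ Y := by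
  obtain ⟨κ, lam, f, S⟩ := exists_eubScale Λ hΛ hpow
  exact ⟨Shrink.{0} ↥(YY Λ κ lam f), inferInstance,
    (muSpace_YY S).homeo (Shrink.homeomorph.{0} ↥(YY Λ κ lam f))⟩

end Pool.Agent.Lib.MP_473540_gtM
end
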